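import Mathlib

/-!
Definitions for the counterexample: G is the connected group of orientation preserving
similitudes of R^3, acting on X = R^3 minus the origin.
-/

open Matrix MeasureTheory
open scoped ContDiff Topology

namespace Pool.Agent.Lib.MP_99bfa4_al

/-- The space X = R^3 minus the origin. -/
abbrev X : Type := {x : Fin 3 → ℝ // x ≠ 0}

/-- The group G of real 3 by 3 matrices g with positive determinant and g^T g scalar. -/
def G : Subgroup (GL (Fin 3) ℝ) where
  carrier := {g | 0 < g.val.det ∧ ∃ t : ℝ, g.valᵀ * g.val = t • (1 : Matrix (Fin 3) (Fin 3) ℝ)}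
  one_mem' := ⟨by simp, 1, by simp⟩
  mul_mem' := by
    rintro a b ⟨ha, s, hs⟩ ⟨hb, t, ht⟩
    refine ⟨by simpa using mul_pos ha hb, s * t, ?_⟩
    rw [Units.val_mul, transpose_mul, Matrix.mul_assoc, ← Matrix.mul_assoc a.valᵀ, hs,
      Matrix.smul_mul, Matrix.one_mul, Matrix.mul_smul, ht, smul_smul]
  inv_mem' := by
    rintro a ⟨ha, s, hs⟩
    have h1 : a.val * a⁻¹.val = 1 := a.mul_inv
    have h2 : a.val.det * a⁻¹.val.det = 1 := by rw [← det_mul, h1, det_one]
    have h3 : s • (a⁻¹.valᵀ * a⁻¹.val) = 1 := by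
      have h4 : (a.val * a⁻¹.val)ᵀ * (a.val * a⁻¹.val) = 1 := by rw [h1]; simp
      rw [transpose_mul, Matrix.mul_assoc, ← Matrix.mul_assoc a.valᵀ, hs, Matrix.smul_mul,
        Matrix.one_mul, Matrix.mul_smul] at h4
      exact h4
    have hs0 : s ≠ 0 := by
      rintro rfl
      simp at h3
    refine ⟨pos_of_mul_pos_left (by rw [mul_comm, h2]; exact one_pos) ha.le, s⁻¹, ?_⟩
    rw [← h3, smul_smul, inv_mul_cancel₀ hs0, one_smul]

/-- G acts on X by matrix times vector. -/
instance act : MulAction G X where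
  smul g x := ⟨g.val.val *ᵥ x.val, fun h => x.property (by
    have h1 : g.val⁻¹.val *ᵥ (g.val.val *ᵥ x.val) = 0 := by rw [h, mulVec_zero]
    rwa [mulVec_mulVec, Units.inv_mul, one_mulVec] at h1)⟩
  one_smul x := Subtype.ext (one_mulVec x.val)
  mul_smul g h x := Subtype.ext (mulVec_mulVec x.val g.val.val h.val.val).symm

/-- Extension by zero of a function on X to R^3. -/
noncomputable def ext (f : X → ℂ) : (Fin 3 → ℝ) → ℂ := Function.extend Subtype.val f 0

lemma ext_val (f : X → ℂ) (x : X) : ext f x.val = f x :=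
  Subtype.val_injective.extend_apply f 0 x

lemma ext_of_ne (f : X → ℂ) {x : Fin 3 → ℝ} (hx : x ≠ 0) : ext f x = f ⟨x, hx⟩ :=
  ext_val f ⟨x, hx⟩

/-- The algebra of smooth complex valued functions on X. -/
noncomputable def Smooth : Subalgebra ℂ (X → ℂ) where
  carrier := {f | ContDiffOn ℝ ∞ (ext f) {x | x ≠ 0}}
  mul_mem' := fun {f g} hf hg => (ContDiffOn.mul hf hg).congr fun x hx => by
    rw [ext_of_ne _ hx, ext_of_ne _ hx, ext_of_ne _ hx, Pi.mul_apply]
  add_mem' := fun {f g} hf hg => (ContDiffOn.add hf hg).congr fun x hx => by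
    rw [ext_of_ne _ hx, ext_of_ne _ hx, ext_of_ne _ hx, Pi.add_apply]
  algebraMap_mem' := fun c => (contDiffOn_const (c := c)).congr fun x hx => by
    rw [ext_of_ne _ hx]; rfl

/-- The measure |x|^(-3) dx on X. -/
noncomputable def mu : Measure X :=
  Measure.comap Subtype.val
    (volume.withDensity fun x : Fin 3 → ℝ => ENNReal.ofReal ((x ⬝ᵥ x) ^ (-(3 / 2) : ℝ)))

section

variable {K : Type} [Group K] [TopologicalSpace K] [MulAction K X]
  {A : Type} [CommRing A] [Algebra ℂ A]

/-- A subgroup acts properly discontinuously and freely on X. -/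
def Discontinuous (L : Subgroup K) : Prop :=
  ProperlyDiscontinuousSMul L X ∧ ∀ γ ∈ L, ∀ x : X, γ • x = x → γ = 1

/-- Neighbourhoods of a homomorphism for the topology of pointwise convergence. -/
def near {Γ : Type} [Group Γ] (ι : Γ →* K) : Filter (Γ →* K) :=
  Filter.comap (fun φ : Γ →* K => (φ : Γ → K)) (𝓝 (ι : Γ → K))

/-- A continuous path of homomorphisms starts at ι and contains one not conjugate to ι. -/
def Deforms {Γ : Type} [Group Γ] (ι : Γ →* K) : Prop :=
  ∃ φ : unitInterval → (Γ →* K), (∀ γ, Continuous fun s => φ s γ) ∧ φ 0 = ι ∧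
    ∃ s, ¬ ∃ g : K, ∀ γ, φ s γ = g * ι γ * g⁻¹

/-- A finitely generated discontinuous group, stable under small deformations, with non-trivial
continuous deformations. -/
def Admissible (Γ : Subgroup K) : Prop :=
  Γ.FG ∧ DiscreteTopology Γ ∧ Discontinuous Γ ∧
    (∀ᶠ φ in near Γ.subtype, Discontinuous φ.range) ∧ Deforms Γ.subtype

/-- For an algebra A of functions on X (val gives the values): the operators in the algebra
generated by multiplications and directional derivatives that commute with the translations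
f(x) ↦ f(g⁻¹ x), g in K. -/
noncomputable def InvDiffOp (K : Type) [Group K] [MulAction K X] (val : A → X → ℂ) :
    Subalgebra ℂ (Module.End ℂ A) :=
  Algebra.adjoin ℂ ({D | ∃ a : A, ∀ f, D f = a * f} ∪
      {D | ∃ v : Fin 3 → ℝ, ∀ f x, val (D f) x = fderiv ℝ (ext (val f)) x.val v}) ⊓
    Subalgebra.centralizer ℂ {T | ∃ g : K, ∀ f x, val (T f) x = val f (g⁻¹ • x)}

/-- Some L-invariant f in A, square integrable and not almost everywhere zero on a fundamental
domain of L, satisfies D f = l D • f for all D in a family of operators. -/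
def HasEigen (val : A → X → ℂ) (L : Subgroup K) {B : Type} (op : B → A → A) (l : B → ℂ) : Prop :=
  ∃ (f : A) (F : Set X), IsFundamentalDomain L F mu ∧ (∀ γ ∈ L, ∀ x, val f (γ • x) = val f x) ∧
    MemLp (val f) 2 (mu.restrict F) ∧ ¬ (val f =ᵐ[mu.restrict F] 0) ∧ ∀ D, op D f = l D • f

/-- Infinitely many characters of the algebra of invariant differential operators are stable
spectra. -/
def InfStable (val : A → X → ℂ) (Γ : Subgroup K) : Prop :=
  {l : InvDiffOp K val →ₐ[ℂ] ℂ |
    ∀ᶠ φ in near Γ.subtype, HasEigen val φ.range (fun D : InvDiffOp K val => D.val) l}.Infinite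

/-- An irreducible (strongly continuous) unitary representation. -/
def Irred.{u} {V : Type u} [NormedAddCommGroup V] [InnerProductSpace ℂ V]
    (π : K →* (V ≃ₗᵢ[ℂ] V)) : Prop :=
  (∀ v, Continuous fun g => π g v) ∧ Nontrivial V ∧
    ∀ W : Submodule ℂ V, IsClosed (W : Set V) → (∀ g, ∀ v ∈ W, π g v ∈ W) → W = ⊥ ∨ W = ⊤

/-- For a normed space L of classes of functions on Y (val picks representatives): there is a
nonzero continuous linear map into L intertwining π with the translations. -/
def MapsTo.{u} {K : Type} [Group K] {Y : Type} [MeasurableSpace Y] [MulAction K Y]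
    (μ : Measure Y) {L : Type} [NormedAddCommGroup L] [NormedSpace ℂ L] (val : L → Y → ℂ)
    {V : Type u} [NormedAddCommGroup V] [InnerProductSpace ℂ V]
    (π : K →* (V ≃ₗᵢ[ℂ] V)) : Prop :=
  ∃ T : V →L[ℂ] L, T ≠ 0 ∧ ∀ g v, val (T (π g v)) =ᵐ[μ] fun x => val (T v) (g⁻¹ • x)

/-- Some irreducible unitary representation of K on a Hilbert space admits a nonzero continuous
K-homomorphism into the regular representation on L^2(Y, μ). -/
def DiscNonempty.{u} (K : Type) [Group K] [TopologicalSpace K] {Y : Type} [MeasurableSpace Y]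
    [MulAction K Y] (μ : Measure Y) : Prop :=
  ∃ (V : Type u) (_ : NormedAddCommGroup V) (_ : InnerProductSpace ℂ V) (_ : CompleteSpace V)
    (π : K →* (V ≃ₗᵢ[ℂ] V)), Irred π ∧ MapsTo μ (fun f : Lp ℂ 2 μ => (f : Y → ℂ)) π

end

end Pool.Agent.Lib.MP_99bfa4_al
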