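import Mathlib

/-!
The notions of the problem for a group K acting on an arbitrary space Y, with an algebra A of
functions on Y (the smooth functions; val gives their values) and a measure on Y.
-/

open MeasureTheory
open scoped Topology

namespace Pool.Agent.Lib.MP_99bfa4_al.Gen

variable {K : Type} [Group K] {A : Type} [CommRing A] [Algebra ℂ A]

/-- A subgroup acts properly discontinuously and freely on Y. -/
def Discontinuous (Y : Type) [TopologicalSpace Y] [MulAction K Y] (L : Subgroup K) : Prop :=
  ProperlyDiscontinuousSMul L Y ∧ ∀ γ ∈ L, ∀ y : Y, γ • y = y → γ = 1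

/-- Neighbourhoods of a homomorphism for the topology of pointwise convergence. -/
def near [TopologicalSpace K] {Γ : Type} [Group Γ] (ι : Γ →* K) : Filter (Γ →* K) :=
  Filter.comap (fun φ : Γ →* K => (φ : Γ → K)) (𝓝 (ι : Γ → K))

/-- A continuous path of homomorphisms starts at ι and contains one not conjugate to ι. -/
def Deforms [TopologicalSpace K] {Γ : Type} [Group Γ] (ι : Γ →* K) : Prop :=
  ∃ φ : unitInterval → (Γ →* K), (∀ γ, Continuous fun s => φ s γ) ∧ φ 0 = ι ∧
    ∃ s, ¬ ∃ g : K, ∀ γ, φ s γ = g * ι γ * g⁻¹

/-- A finitely generated discontinuous group for Y, stable under small deformations, with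
non-trivial continuous deformations. -/
def Admissible [TopologicalSpace K] (Y : Type) [TopologicalSpace Y] [MulAction K Y]
    (Γ : Subgroup K) : Prop :=
  Γ.FG ∧ DiscreteTopology Γ ∧ Discontinuous Y Γ ∧
    (∀ᶠ φ in near Γ.subtype, Discontinuous Y φ.range) ∧ Deforms Γ.subtype

/-- The K-invariant differential operators: the elements of the algebra generated by the
multiplications by elements of A and the vector fields (linear maps D from A to A that at every
point y are the derivative along a curve through y) that commute with the translations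
f(y) ↦ f(g⁻¹ y), g in K. -/
noncomputable def InvDiffOp (K : Type) [Group K] {Y : Type} [MulAction K Y] (val : A → Y → ℂ) :
    Subalgebra ℂ (Module.End ℂ A) :=
  Algebra.adjoin ℂ ({D | ∃ a : A, ∀ f, D f = a * f} ∪
      {D | ∀ y, ∃ c : ℝ → Y, c 0 = y ∧ ∀ f, HasDerivAt (fun t => val f (c t)) (val (D f) y) 0}) ⊓
    Subalgebra.centralizer ℂ {T | ∃ g : K, ∀ f y, val (T f) y = val f (g⁻¹ • y)}

/-- Some L-invariant function f, square integrable and not almost everywhere zero on a
fundamental domain of L, satisfies D f = l D • f weakly for all D in a family of operators: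
for compactly supported u, w in A with w the formal transpose of D applied to u, the integral of
f w is l D times the integral of f u. -/
def HasWeakEigen {Y : Type} [TopologicalSpace Y] [MeasurableSpace Y] [MulAction K Y]
    (μ : Measure Y) (val : A → Y → ℂ) (L : Subgroup K) {B : Type} (op : B → A → A) (l : B → ℂ) :
    Prop :=
  ∃ (f : Y → ℂ) (F : Set Y), IsFundamentalDomain L F μ ∧ (∀ γ ∈ L, ∀ y, f (γ • y) = f y) ∧
    MemLp f 2 (μ.restrict F) ∧ ¬ (f =ᵐ[μ.restrict F] 0) ∧
    ∀ D, ∀ u w : A, HasCompactSupport (val u) → HasCompactSupport (val w) →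
      (∀ a : A, ∫ y, val (op D a) y * val u y ∂μ = ∫ y, val a y * val w y ∂μ) →
      ∫ y, f y * val w y ∂μ = l D * ∫ y, f y * val u y ∂μ

/-- Infinitely many characters of the algebra of invariant differential operators are stable
spectra (weak L^2 eigenfunctions). -/
def InfStable [TopologicalSpace K] {Y : Type} [TopologicalSpace Y] [MeasurableSpace Y]
    [MulAction K Y] (μ : Measure Y) (val : A → Y → ℂ) (Γ : Subgroup K) : Prop :=
  {l : InvDiffOp K val →ₐ[ℂ] ℂ | ∀ᶠ φ in near Γ.subtype,
    HasWeakEigen μ val φ.range (fun D : InvDiffOp K val => D.val) l}.Infinite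

/-- The algebra of invariant differential operators has at most one character. -/
def OneChar (K : Type) [Group K] {Y : Type} [MulAction K Y] (val : A → Y → ℂ) : Prop :=
  ∀ l l' : InvDiffOp K val →ₐ[ℂ] ℂ, l = l'

/-- The algebra of invariant differential operators is not commutative. -/
def NonComm (K : Type) [Group K] {Y : Type} [MulAction K Y] (val : A → Y → ℂ) : Prop :=
  ∃ D ∈ InvDiffOp K val, ∃ D' ∈ InvDiffOp K val, D * D' ≠ D' * D

/-- An irreducible (strongly continuous) unitary representation. -/
def Irred [TopologicalSpace K] {V : Type} [NormedAddCommGroup V] [InnerProductSpace ℂ V]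
    (π : K →* (V ≃ₗᵢ[ℂ] V)) : Prop :=
  (∀ v, Continuous fun g => π g v) ∧ Nontrivial V ∧
    ∀ W : Submodule ℂ V, IsClosed (W : Set V) → (∀ g, ∀ v ∈ W, π g v ∈ W) → W = ⊥ ∨ W = ⊤

/-- For a normed space L of classes of functions on Y (val picks representatives): there is a
nonzero continuous linear map into L intertwining π with the translations. -/
def MapsTo {Y : Type} [MeasurableSpace Y] [MulAction K Y]
    (μ : Measure Y) {L : Type} [NormedAddCommGroup L] [NormedSpace ℂ L] (val : L → Y → ℂ)
    {V : Type} [NormedAddCommGroup V] [InnerProductSpace ℂ V]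
    (π : K →* (V ≃ₗᵢ[ℂ] V)) : Prop :=
  ∃ T : V →L[ℂ] L, T ≠ 0 ∧ ∀ g v, val (T (π g v)) =ᵐ[μ] fun y => val (T v) (g⁻¹ • y)

/-- Some irreducible unitary representation of K on a Hilbert space admits a nonzero continuous
K-homomorphism into the regular representation on L^2(Y, μ). -/
def DiscNonempty (K : Type) [Group K] [TopologicalSpace K] {Y : Type} [MeasurableSpace Y]
    [MulAction K Y] (μ : Measure Y) : Prop :=
  ∃ (V : Type) (_ : NormedAddCommGroup V) (_ : InnerProductSpace ℂ V) (_ : CompleteSpace V)
    (π : K →* (V ≃ₗᵢ[ℂ] V)), Irred π ∧ MapsTo μ (fun f : Lp ℂ 2 μ => (f : Y → ℂ)) π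

end Pool.Agent.Lib.MP_99bfa4_al.Gen
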