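import Pool.Agent.Lib.MP_99bfa4_al.Defs

/-! Elementary facts on the similitude group G. -/

open Matrix MeasureTheory
open scoped ContDiff Topology

namespace Pool.Agent.Lib.MP_99bfa4_al

lemma isOpen_ne_zero : IsOpen {x : Fin 3 → ℝ | x ≠ 0} := isOpen_ne

lemma smul_val (g : G) (x : X) : (g • x).val = g.val.val *ᵥ x.val := rfl

/-- The similitude factor. -/
noncomputable def sc (g : G) : ℝ := (g.val.valᵀ * g.val.val) 2 2

lemma sc_spec (g : G) : g.val.valᵀ * g.val.val = sc g • (1 : Matrix (Fin 3) (Fin 3) ℝ) := by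
  obtain ⟨-, t, ht⟩ := g.property
  have : sc g = t := by simp [sc, ht]
  rw [this, ht]

lemma det_pos (g : G) : 0 < g.val.val.det := g.property.1

lemma det_sq (g : G) : g.val.val.det ^ 2 = sc g ^ 3 := by
  have h := congrArg det (sc_spec g)
  rw [det_mul, det_transpose, det_smul, det_one] at h
  simpa [sq] using h

lemma sc_pos (g : G) : 0 < sc g := by
  have h1 := det_sq g
  have h2 : 0 < sc g ^ 3 := by rw [← h1]; exact pow_pos (det_pos g) 2
  exact (Odd.pow_pos_iff (by decide)).1 h2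

lemma sc_spec' (g : G) : g.val.val * g.val.valᵀ = sc g • (1 : Matrix (Fin 3) (Fin 3) ℝ) := by
  have h0 := (sc_pos g).ne'
  have h1 : ((sc g)⁻¹ • g.val.valᵀ) * g.val.val = 1 := by
    rw [Matrix.smul_mul, sc_spec, smul_smul, inv_mul_cancel₀ h0, one_smul]
  have h2 : g.val.val * ((sc g)⁻¹ • g.val.valᵀ) = 1 := mul_eq_one_comm.1 h1
  rw [Matrix.mul_smul] at h2
  rw [← h2, smul_smul, mul_inv_cancel₀ h0, one_smul]

lemma dot_mulVec (g : G) (x : Fin 3 → ℝ) :
    (g.val.val *ᵥ x) ⬝ᵥ (g.val.val *ᵥ x) = sc g * (x ⬝ᵥ x) := by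
  rw [dotProduct_mulVec, vecMul_mulVec, sc_spec]
  simp [vecMul_smul]

/-- The squared norm on X. -/
def N (x : X) : ℝ := x.val ⬝ᵥ x.val

lemma N_pos (x : X) : 0 < N x := by
  have h : 0 ≤ N x := by
    unfold N dotProduct
    exact Finset.sum_nonneg fun i _ => mul_self_nonneg _
  exact lt_of_le_of_ne h fun h0 => x.property (dotProduct_self_eq_zero.1 h0.symm)

lemma N_smul (g : G) (x : X) : N (g • x) = sc g * N x := dot_mulVec g x.val

lemma continuous_N : Continuous N := by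
  unfold N
  fun_prop

/-- The base point. -/
def e3 : X := ⟨![0, 0, 1], fun h => by simpa using congrFun h 2⟩

lemma N_e3 : N e3 = 1 := by simp [N, e3, dotProduct, Fin.sum_univ_three]

lemma sc_eq (g : G) : sc g = N (g • e3) := by rw [N_smul, N_e3, mul_one]

lemma sc_mul (g h : G) : sc (g * h) = sc g * sc h := by
  rw [sc_eq, mul_smul, N_smul, ← sc_eq]

lemma sc_one : sc 1 = 1 := by rw [sc_eq, one_smul, N_e3]

/-- The similitude factor as a homomorphism. -/
noncomputable def scHom : G →* ℝ where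
  toFun := sc
  map_one' := sc_one
  map_mul' := sc_mul

lemma sc_zpow (g : G) (n : ℤ) : sc (g ^ n) = sc g ^ n := map_zpow scHom g n

lemma sc_inv (g : G) : sc g⁻¹ = (sc g)⁻¹ := map_inv scHom g

lemma continuous_mat : Continuous fun g : G => g.val.val :=
  Units.continuous_val.comp continuous_subtype_val

lemma continuous_sc : Continuous sc := by
  unfold sc
  have := continuous_mat
  fun_prop

instance : ContinuousSMul G X where
  continuous_smul := by
    apply Continuous.subtype_mk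
    have := continuous_mat
    exact Continuous.matrix_mulVec (by fun_prop) (by fun_prop)

/-- Element of G from a matrix. -/
noncomputable def mk (M : Matrix (Fin 3) (Fin 3) ℝ) (hd : 0 < M.det) (t : ℝ)
    (h : Mᵀ * M = t • (1 : Matrix (Fin 3) (Fin 3) ℝ)) : G :=
  ⟨Matrix.GeneralLinearGroup.mkOfDetNeZero M hd.ne', hd, t, h⟩

lemma mk_val (M : Matrix (Fin 3) (Fin 3) ℝ) (hd : 0 < M.det) (t : ℝ)
    (h : Mᵀ * M = t • (1 : Matrix (Fin 3) (Fin 3) ℝ)) : (mk M hd t h).val.val = M := rfl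

lemma G_ext {g h : G} (e : g.val.val = h.val.val) : g = h := Subtype.ext (Units.ext e)

/-- Similitude with axis e3. -/
noncomputable def rot (a c s : ℝ) (hs : 0 < s) (h : a ^ 2 + c ^ 2 = s ^ 2) : G :=
  mk !![a, -c, 0; c, a, 0; 0, 0, s]
    (by
      have : det !![a, -c, 0; c, a, 0; 0, 0, s] = s ^ 3 := by
        rw [det_fin_three]; simp; linear_combination s * h
      rw [this]; positivity)
    (s ^ 2)
    (by
      ext i j
      fin_cases i <;> fin_cases j <;> simp [Matrix.mul_apply, Fin.sum_univ_three] <;>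
        first | ring1 | linear_combination h)

lemma rot_val (a c s : ℝ) (hs : 0 < s) (h : a ^ 2 + c ^ 2 = s ^ 2) :
    (rot a c s hs h).val.val = !![a, -c, 0; c, a, 0; 0, 0, s] := rfl

lemma exists_smul_e3 (x : X) : ∃ k : G, k • e3 = x := by
  obtain ⟨v, hv⟩ := x
  have hN := N_pos ⟨v, hv⟩
  set r := √(N ⟨v, hv⟩) with hr
  have hr0 : 0 < r := Real.sqrt_pos.2 hN
  have hr2 : r ^ 2 = v 0 ^ 2 + v 1 ^ 2 + v 2 ^ 2 := by
    rw [hr, Real.sq_sqrt hN.le]
    simp [N, dotProduct, Fin.sum_univ_three, sq]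
  by_cases h : r + v 2 = 0
  · have h2 : v 2 = -r := by linarith
    have h01 : v 0 ^ 2 + v 1 ^ 2 = 0 := by rw [h2] at hr2; linarith
    have h0 : v 0 = 0 := by nlinarith [sq_nonneg (v 0), sq_nonneg (v 1)]
    have h1 : v 1 = 0 := by nlinarith [sq_nonneg (v 0), sq_nonneg (v 1)]
    refine ⟨mk !![r, 0, 0; 0, -r, 0; 0, 0, -r] ?_ (r ^ 2) ?_, Subtype.ext ?_⟩
    · rw [det_fin_three]; simp; positivity
    · ext i j
      fin_cases i <;> fin_cases j <;> simp [Matrix.mul_apply, Fin.sum_univ_three, sq]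
    · rw [smul_val, mk_val]
      ext i
      fin_cases i <;> simp [e3, mulVec, dotProduct, Fin.sum_univ_three, h0, h1, h2]
  · set d := (r + v 2)⁻¹ with hd
    have hd1 : d * (r + v 2) = 1 := inv_mul_cancel₀ h
    have hd2 : d * (v 0 ^ 2 + v 1 ^ 2) = r - v 2 := by
      have : v 0 ^ 2 + v 1 ^ 2 = (r + v 2) * (r - v 2) := by linear_combination -hr2
      rw [this, ← mul_assoc, hd1, one_mul]
    refine ⟨mk !![v 0 ^ 2 * d - r, v 0 * v 1 * d, v 0; v 0 * v 1 * d, v 1 ^ 2 * d - r, v 1;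
      v 0, v 1, v 2] ?_ (r ^ 2) ?_, Subtype.ext ?_⟩
    · have : det !![v 0 ^ 2 * d - r, v 0 * v 1 * d, v 0; v 0 * v 1 * d, v 1 ^ 2 * d - r, v 1;
          v 0, v 1, v 2] = r ^ 3 := by
        rw [det_fin_three]; simp
        linear_combination (-r * v 2) * hd2 - r * hr2
      rw [this]; positivity
    · ext i j
      fin_cases i <;> fin_cases j <;> simp [Matrix.mul_apply, Fin.sum_univ_three]
      · linear_combination (v 0 ^ 2 * d) * hd2 - (v 0 ^ 2) * hd1
      · linear_combination (v 0 * v 1 * d) * hd2 - (v 0 * v 1) * hd1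
      · linear_combination (v 0) * hd2
      · linear_combination (v 0 * v 1 * d) * hd2 - (v 0 * v 1) * hd1
      · linear_combination (v 1 ^ 2 * d) * hd2 - (v 1 ^ 2) * hd1
      · linear_combination (v 1) * hd2
      · linear_combination (v 0) * hd2
      · linear_combination (v 1) * hd2
      · linear_combination -hr2
    · rw [smul_val, mk_val]
      ext i
      fin_cases i <;> simp [e3, mulVec, dotProduct, Fin.sum_univ_three]

instance pretransitive : MulAction.IsPretransitive G X where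
  exists_smul_eq x y := by
    obtain ⟨k, rfl⟩ := exists_smul_e3 x
    obtain ⟨l, rfl⟩ := exists_smul_e3 y
    exact ⟨l * k⁻¹, by rw [mul_smul, inv_smul_smul]⟩

lemma eq_rot (h : G) (s : ℝ) (hs : 0 < s) (he : h.val.val *ᵥ e3.val = s • e3.val) :
    ∃ (a c : ℝ) (hac : a ^ 2 + c ^ 2 = s ^ 2), h = rot a c s hs hac := by
  set M := h.val.val with hM
  have h02 : M 0 2 = 0 := by
    simpa [e3, mulVec, dotProduct, Fin.sum_univ_three] using congrFun he 0
  have h12 : M 1 2 = 0 := by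
    simpa [e3, mulVec, dotProduct, Fin.sum_univ_three] using congrFun he 1
  have h22 : M 2 2 = s := by
    simpa [e3, mulVec, dotProduct, Fin.sum_univ_three] using congrFun he 2
  have hsp := sc_spec h
  rw [← hM] at hsp
  have e (i j : Fin 3) : M 0 i * M 0 j + M 1 i * M 1 j + M 2 i * M 2 j =
      sc h * (1 : Matrix (Fin 3) (Fin 3) ℝ) i j := by
    simpa [Matrix.mul_apply, Fin.sum_univ_three] using congrFun (congrFun hsp i) j
  have e22 := e 2 2
  have e02 := e 0 2
  have e12 := e 1 2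
  have e00 := e 0 0
  have e01 := e 0 1
  have e11 := e 1 1
  simp [h02, h12, h22, hs.ne'] at e22 e02 e12 e00 e01 e11
  have hdet := det_pos h
  rw [← hM, det_fin_three] at hdet
  simp [h02, h12, h22, e02, e12] at hdet e00 e01 e11
  have hD : 0 < M 0 0 * M 1 1 - M 0 1 * M 1 0 := by
    by_contra hc
    push Not at hc
    nlinarith
  have hD2 : (M 0 0 * M 1 1 - M 0 1 * M 1 0) ^ 2 = (s ^ 2) ^ 2 := by
    rw [← e22] at e00 e11
    linear_combination (M 0 1 * M 0 1 + M 1 1 * M 1 1) * e00 + (s * s) * e11 -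
      (M 0 0 * M 0 1 + M 1 0 * M 1 1) * e01
  have hD3 : M 0 0 * M 1 1 - M 0 1 * M 1 0 = s ^ 2 :=
    (pow_left_inj₀ hD.le (by positivity) two_ne_zero).1 hD2
  have hz : (M 0 0 - M 1 1) ^ 2 + (M 0 1 + M 1 0) ^ 2 = 0 := by
    rw [← e22] at e00 e11
    linear_combination e00 + e11 - 2 * hD3
  have z1 : M 1 1 = M 0 0 := by nlinarith [sq_nonneg (M 0 0 - M 1 1), sq_nonneg (M 0 1 + M 1 0)]
  have z2 : M 0 1 = - M 1 0 := by nlinarith [sq_nonneg (M 0 0 - M 1 1), sq_nonneg (M 0 1 + M 1 0)]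
  refine ⟨M 0 0, M 1 0, by rw [← e22] at e00; linear_combination e00, G_ext ?_⟩
  rw [rot_val, ← hM]
  ext i j
  fin_cases i <;> fin_cases j <;> simp [h02, h12, h22, e02, e12, z1, z2]

lemma exists_axis (g : G) : ∃ (k : G) (a c s : ℝ) (hs : 0 < s) (hac : a ^ 2 + c ^ 2 = s ^ 2),
    g = k * rot a c s hs hac * k⁻¹ := by
  set s := √(sc g) with hs
  have hs0 : 0 < s := Real.sqrt_pos.2 (sc_pos g)
  have hs2 : s ^ 2 = sc g := Real.sq_sqrt (sc_pos g).le
  set M := g.val.val with hM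
  have hdet : M.det = s ^ 3 := by
    have h1 : M.det ^ 2 = (s ^ 3) ^ 2 := by rw [hM, det_sq, ← hs2]; ring
    exact (pow_left_inj₀ (det_pos g).le (by positivity) two_ne_zero).1 h1
  have h1 : Mᵀ * (M - s • 1) = (-s) • (M - s • 1)ᵀ := by
    rw [Matrix.mul_sub, hM, sc_spec, ← hs2]
    simp [smul_smul, sq, sub_eq_add_neg, add_comm]
  have h2 : (M - s • 1).det = 0 := by
    have h3 := congrArg det h1
    rw [det_mul, det_transpose, det_smul, det_transpose, hdet] at h3
    simp only [Fintype.card_fin] at h3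
    have h4 : 2 * s ^ 3 * (M - s • 1).det = 0 := by linear_combination h3
    have h5 : 2 * s ^ 3 ≠ 0 := by positivity
    exact (mul_eq_zero.1 h4).resolve_left h5
  obtain ⟨v, hv0, hv⟩ := Matrix.exists_mulVec_eq_zero_iff.2 h2
  have hv1 : M *ᵥ v = s • v := by
    rw [sub_mulVec, smul_mulVec, one_mulVec, sub_eq_zero] at hv
    exact hv
  obtain ⟨k, hk⟩ := exists_smul_e3 ⟨v, hv0⟩
  have hk1 : k.val.val *ᵥ e3.val = v := congrArg Subtype.val hk
  have hk2 : k⁻¹.val.val *ᵥ v = e3.val := by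
    have : k⁻¹ • (⟨v, hv0⟩ : X) = e3 := by rw [← hk, inv_smul_smul]
    exact congrArg Subtype.val this
  obtain ⟨a, c, hac, h⟩ := eq_rot (k⁻¹ * g * k) s hs0 (by
    have : (k⁻¹ * g * k).val.val = k⁻¹.val.val * M * k.val.val := rfl
    rw [this, ← mulVec_mulVec, ← mulVec_mulVec, hk1, hv1, mulVec_smul, hk2])
  exact ⟨k, a, c, s, hs0, hac, by rw [← h]; group⟩

end Pool.Agent.Lib.MP_99bfa4_al
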