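import Pool.Agent.Lib.MP_99bfa4_al.Group

-- part Pool.Agent.Lib.MP_99bfa4_al.Ops
section

/-! Calculus in the algebra of smooth functions on X; the invariant Laplacian. -/

open Matrix MeasureTheory
open scoped ContDiff Topology

namespace Pool.Agent.Lib.MP_99bfa4_al

lemma diffAt (f : Smooth) (x : X) : DifferentiableAt ℝ (ext f.val) x.val :=
  (ContDiffOn.contDiffAt f.property (isOpen_ne_zero.mem_nhds x.property)).differentiableAt
    (by simp)

lemma ext_eventuallyEq {f : X → ℂ} {F : (Fin 3 → ℝ) → ℂ} (h : ∀ y : X, f y = F y.val) (x : X) :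
    ext f =ᶠ[𝓝 x.val] F :=
  Filter.eventually_of_mem (isOpen_ne_zero.mem_nhds x.property) fun y hy => by
    rw [ext_of_ne _ hy, h]

/-- The directional derivative along a vector v of R^3, as an operator on smooth functions. -/
noncomputable def pd (v : Fin 3 → ℝ) : Module.End ℂ Smooth where
  toFun f := ⟨fun x => fderiv ℝ (ext f.val) x.val v,
    ((ContDiffOn.fderiv_of_isOpen (m := ∞) f.property isOpen_ne_zero (by simp)).clm_apply
      contDiffOn_const).congr fun x hx => by rw [ext_of_ne _ hx]⟩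
  map_add' f g := Subtype.ext (funext fun x => by
    have h : ext (f + g).val =ᶠ[𝓝 x.val] (ext f.val + ext g.val) :=
      ext_eventuallyEq (fun y => by simp [ext_val]) x
    change fderiv ℝ (ext (f + g).val) x.val v =
      fderiv ℝ (ext f.val) x.val v + fderiv ℝ (ext g.val) x.val v
    rw [h.fderiv_eq, fderiv_add (diffAt f x) (diffAt g x)]
    rfl)
  map_smul' c f := Subtype.ext (funext fun x => by
    have h : ext (c • f).val =ᶠ[𝓝 x.val] (c • ext f.val) :=
      ext_eventuallyEq (fun y => by simp [ext_val]) x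
    change fderiv ℝ (ext (c • f).val) x.val v = c • fderiv ℝ (ext f.val) x.val v
    rw [h.fderiv_eq, fderiv_const_smul (diffAt f x)]
    rfl)

/-- The translation operator f(x) ↦ f(g⁻¹ x) on smooth functions. -/
noncomputable def tr (g : G) : Module.End ℂ Smooth where
  toFun f := ⟨fun x => f.val (g⁻¹ • x),
    (ContDiffOn.comp (t := {x | x ≠ 0}) f.property
      (Matrix.mulVecLin g⁻¹.val.val).toContinuousLinearMap.contDiff.contDiffOn
      (fun x hx => (g⁻¹ • (⟨x, hx⟩ : X)).property)).congr fun x hx => by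
        rw [ext_of_ne _ hx]
        exact (ext_val f.val (g⁻¹ • (⟨x, hx⟩ : X))).symm⟩
  map_add' _ _ := rfl
  map_smul' _ _ := rfl

/-- Linear differential operators with smooth coefficients on X: the algebra generated by the
multiplications by smooth functions and the directional derivatives. -/
noncomputable def DiffOp : Subalgebra ℂ (Module.End ℂ Smooth) :=
  Algebra.adjoin ℂ (Set.range (fun a : Smooth => LinearMap.mulLeft ℂ a) ∪ Set.range pd)

/-- The algebra of G-invariant differential operators on X. -/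
noncomputable def InvOp : Subalgebra ℂ (Module.End ℂ Smooth) :=
  DiffOp ⊓ Subalgebra.centralizer ℂ (Set.range tr)

lemma Smooth.ext' {f g : Smooth} (h : ∀ x, f.val x = g.val x) : f = g := Subtype.ext (funext h)

/-- A smooth function on X from a function on R^3 smooth away from the origin. -/
noncomputable def ofFun (F : (Fin 3 → ℝ) → ℂ) (hF : ContDiffOn ℝ ∞ F {x | x ≠ 0}) : Smooth :=
  ⟨fun x => F x.val, hF.congr fun x hx => by rw [ext_of_ne _ hx]⟩

/-- The coordinate as a real linear map to the complex numbers. -/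
noncomputable def coL (i : Fin 3) : (Fin 3 → ℝ) →L[ℝ] ℂ :=
  Complex.ofRealCLM.comp (ContinuousLinearMap.proj i)

/-- Coordinate functions. -/
noncomputable def co (i : Fin 3) : Smooth := ofFun (coL i) (coL i).contDiff.contDiffOn

@[simp] lemma co_val (i : Fin 3) (x : X) : (co i).val x = (x.val i : ℂ) := rfl

/-- The inverse of the squared norm. -/
noncomputable def Ninv : Smooth :=
  ofFun (fun x => (coL 0 x * coL 0 x + coL 1 x * coL 1 x + coL 2 x * coL 2 x)⁻¹) (by
    apply ContDiffOn.inv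
    · exact (((coL 0).contDiff.mul (coL 0).contDiff).add
        ((coL 1).contDiff.mul (coL 1).contDiff)).add ((coL 2).contDiff.mul (coL 2).contDiff)
        |>.contDiffOn
    · intro x hx
      have h := N_pos ⟨x, hx⟩
      have h2 : coL 0 x * coL 0 x + coL 1 x * coL 1 x + coL 2 x * coL 2 x = (N ⟨x, hx⟩ : ℂ) := by
        simp [coL, N, dotProduct, Fin.sum_univ_three]
      rw [h2]
      exact_mod_cast h.ne')

lemma Ninv_val (x : X) : Ninv.val x = ((N x : ℂ))⁻¹ := by
  simp [Ninv, ofFun, coL, N, dotProduct, Fin.sum_univ_three]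

/-- The squared norm. -/
noncomputable def Nn : Smooth := co 0 * co 0 + co 1 * co 1 + co 2 * co 2

lemma Nn_val (x : X) : Nn.val x = (N x : ℂ) := by
  simp [Nn, N, dotProduct, Fin.sum_univ_three]

lemma Nn_mul_Ninv : Nn * Ninv = 1 := Smooth.ext' fun x => by
  have h : (N x : ℂ) ≠ 0 := by exact_mod_cast (N_pos x).ne'
  simp [Nn_val, Ninv_val, h]

lemma tr_val (g : G) (f : Smooth) (x : X) : (tr g f).val x = f.val (g⁻¹ • x) := rfl

lemma tr_mul_apply (g h : G) (f : Smooth) : tr (g * h) f = tr g (tr h f) :=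
  Smooth.ext' fun x => by simp [tr_val, mul_smul]

lemma tr_one_apply (f : Smooth) : tr 1 f = f := Smooth.ext' fun x => by simp [tr_val]

/-- Translation as an algebra homomorphism. -/
noncomputable def trA (g : G) : Smooth →ₐ[ℂ] Smooth :=
  AlgHom.ofLinearMap (tr g) rfl (fun _ _ => rfl)

lemma trA_apply (g : G) (f : Smooth) : trA g f = tr g f := rfl

/-- Evaluation at a point. -/
noncomputable def ev (x : X) : Smooth →ₐ[ℂ] ℂ := (Pi.evalAlgHom ℂ (fun _ => ℂ) x).comp Smooth.val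

lemma ev_apply (x : X) (f : Smooth) : ev x f = f.val x := rfl

lemma pd_val (v : Fin 3 → ℝ) (f : Smooth) (x : X) :
    (pd v f).val x = fderiv ℝ (ext f.val) x.val v := rfl

lemma pd_mul (v : Fin 3 → ℝ) (f g : Smooth) : pd v (f * g) = f * pd v g + g * pd v f :=
  Smooth.ext' fun x => by
    have h : ext (f * g).val =ᶠ[𝓝 x.val] (ext f.val * ext g.val) :=
      ext_eventuallyEq (fun y => by simp [ext_val]) x
    rw [pd_val, h.fderiv_eq, fderiv_mul (diffAt f x) (diffAt g x)]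
    simp [pd_val, ext_val]

lemma pd_co (v : Fin 3 → ℝ) (i : Fin 3) : pd v (co i) = algebraMap ℂ Smooth (v i) :=
  Smooth.ext' fun x => by
    have h : ext (co i).val =ᶠ[𝓝 x.val] (coL i) := 
      ext_eventuallyEq (f := (co i).val) (F := coL i) (fun y => rfl) x
    rw [pd_val, h.fderiv_eq, ContinuousLinearMap.fderiv]
    simp [coL]

lemma pd_one (v : Fin 3 → ℝ) : pd v 1 = 0 := by
  have h := pd_mul v 1 1
  simpa using h

lemma pd_algebraMap (v : Fin 3 → ℝ) (c : ℂ) : pd v (algebraMap ℂ Smooth c) = 0 := by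
  rw [Algebra.algebraMap_eq_smul_one, map_smul, pd_one, smul_zero]

lemma pd_Ninv (v : Fin 3 → ℝ) : pd v Ninv = - (Ninv * Ninv * pd v Nn) := by
  have h := pd_mul v Nn Ninv
  rw [Nn_mul_Ninv, pd_one] at h
  have h2 := Nn_mul_Ninv
  linear_combination (-Ninv) * h - pd v Ninv * h2

lemma pd_tr (v : Fin 3 → ℝ) (g : G) (f : Smooth) :
    pd v (tr g f) = tr g (pd (g⁻¹.val.val *ᵥ v) f) :=
  Smooth.ext' fun x => by
    set L := (Matrix.mulVecLin g⁻¹.val.val).toContinuousLinearMap with hL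
    have h : ext (tr g f).val =ᶠ[𝓝 x.val] (ext f.val ∘ L) :=
      ext_eventuallyEq (fun y => (ext_val f.val (g⁻¹ • y)).symm) x
    have hx : L x.val = (g⁻¹ • x).val := rfl
    rw [pd_val, h.fderiv_eq, fderiv_comp _ (by rw [hx]; exact diffAt f _) L.differentiableAt,
      ContinuousLinearMap.fderiv, tr_val, pd_val, hx]
    rfl

lemma pd_expand (v : Fin 3 → ℝ) (f : Smooth) :
    pd v f = (v 0 : ℂ) • pd ![1, 0, 0] f + (v 1 : ℂ) • pd ![0, 1, 0] f +
      (v 2 : ℂ) • pd ![0, 0, 1] f :=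
  Smooth.ext' fun x => by
    have hv : v = v 0 • ![1, 0, 0] + v 1 • ![0, 1, 0] + v 2 • ![0, 0, 1] := by
      ext i; fin_cases i <;> simp
    rw [pd_val]
    conv_lhs => rw [hv]
    simp only [map_add, map_smul]
    simp [pd_val]

/-- The operator |x|^2 times the Laplacian. -/
noncomputable def Lap : Module.End ℂ Smooth :=
  LinearMap.mulLeft ℂ Nn *
    (pd ![1, 0, 0] * pd ![1, 0, 0] + pd ![0, 1, 0] * pd ![0, 1, 0] + pd ![0, 0, 1] * pd ![0, 0, 1])

lemma Lap_apply (f : Smooth) : Lap f = Nn * (pd ![1, 0, 0] (pd ![1, 0, 0] f) +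
    pd ![0, 1, 0] (pd ![0, 1, 0] f) + pd ![0, 0, 1] (pd ![0, 0, 1] f)) := rfl

lemma tr_Nn (g : G) : tr g Nn = ((sc g⁻¹ : ℝ) : ℂ) • Nn := Smooth.ext' fun x => by
  simp [tr_val, Nn_val, N_smul]

lemma tr_Ninv (g : G) : tr g Ninv = ((sc g : ℝ) : ℂ) • Ninv := Smooth.ext' fun x => by
  simp [tr_val, Ninv_val, N_smul, sc_inv, mul_comm]

lemma Lap_tr (g : G) (f : Smooth) : Lap (tr g f) = tr g (Lap f) := by
  set M := g⁻¹.val.val with hM
  have hs := sc_spec' g⁻¹
  rw [← hM] at hs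
  have e (i j : Fin 3) : (M i 0 : ℂ) * M j 0 + M i 1 * M j 1 + M i 2 * M j 2 =
      ((sc g⁻¹ * (1 : Matrix (Fin 3) (Fin 3) ℝ) i j : ℝ) : ℂ) := by
    have := congrFun (congrFun hs i) j
    simp only [Matrix.mul_apply, Fin.sum_univ_three, transpose_apply, Matrix.smul_apply,
      smul_eq_mul] at this
    rw [← this]; push_cast; ring
  have e00 := e 0 0
  have e01 := e 0 1
  have e02 := e 0 2
  have e11 := e 1 1
  have e12 := e 1 2
  have e22 := e 2 2
  simp at e00 e01 e02 e11 e12 e22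
  have key : pd (M *ᵥ ![1, 0, 0]) (pd (M *ᵥ ![1, 0, 0]) f) +
      pd (M *ᵥ ![0, 1, 0]) (pd (M *ᵥ ![0, 1, 0]) f) +
      pd (M *ᵥ ![0, 0, 1]) (pd (M *ᵥ ![0, 0, 1]) f) =
      ((sc g⁻¹ : ℝ) : ℂ) • (pd ![1, 0, 0] (pd ![1, 0, 0] f) +
        pd ![0, 1, 0] (pd ![0, 1, 0] f) + pd ![0, 0, 1] (pd ![0, 0, 1] f)) := by
    rw [pd_expand (M *ᵥ ![1, 0, 0]) f, pd_expand (M *ᵥ ![0, 1, 0]) f,
      pd_expand (M *ᵥ ![0, 0, 1]) f, pd_expand (M *ᵥ ![1, 0, 0]), pd_expand (M *ᵥ ![0, 1, 0]),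
      pd_expand (M *ᵥ ![0, 0, 1])]
    have c0 (i : Fin 3) : (M *ᵥ ![1, 0, 0]) i = M i 0 := by
      simp [mulVec, dotProduct, Fin.sum_univ_three]
    have c1 (i : Fin 3) : (M *ᵥ ![0, 1, 0]) i = M i 1 := by
      simp [mulVec, dotProduct, Fin.sum_univ_three]
    have c2 (i : Fin 3) : (M *ᵥ ![0, 0, 1]) i = M i 2 := by
      simp [mulVec, dotProduct, Fin.sum_univ_three]
    simp only [map_add, map_smul, c0, c1, c2]
    linear_combination (norm := module) e00 • pd ![1, 0, 0] (pd ![1, 0, 0] f) +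
      e01 • pd ![1, 0, 0] (pd ![0, 1, 0] f) + e02 • pd ![1, 0, 0] (pd ![0, 0, 1] f) +
      e01 • pd ![0, 1, 0] (pd ![1, 0, 0] f) + e11 • pd ![0, 1, 0] (pd ![0, 1, 0] f) +
      e12 • pd ![0, 1, 0] (pd ![0, 0, 1] f) + e02 • pd ![0, 0, 1] (pd ![1, 0, 0] f) +
      e12 • pd ![0, 0, 1] (pd ![0, 1, 0] f) + e22 • pd ![0, 0, 1] (pd ![0, 0, 1] f)
  rw [Lap_apply, Lap_apply, pd_tr, pd_tr, pd_tr, pd_tr, pd_tr, pd_tr, ← map_add, ← map_add, ← hM,
    key, ← trA_apply g (Nn * _), map_mul, trA_apply, trA_apply, tr_Nn, map_smul, mul_smul_comm,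
    smul_mul_assoc]

lemma Lap_mem : Lap ∈ InvOp := by
  constructor
  · have h1 : ∀ a : Smooth, LinearMap.mulLeft ℂ a ∈ DiffOp := fun a =>
      Algebra.subset_adjoin (Or.inl ⟨a, rfl⟩)
    have h2 : ∀ v, pd v ∈ DiffOp := fun v => Algebra.subset_adjoin (Or.inr ⟨v, rfl⟩)
    exact DiffOp.mul_mem (h1 _) (DiffOp.add_mem (DiffOp.add_mem (DiffOp.mul_mem (h2 _) (h2 _))
      (DiffOp.mul_mem (h2 _) (h2 _))) (DiffOp.mul_mem (h2 _) (h2 _)))
  · rw [SetLike.mem_coe, Subalgebra.mem_centralizer_iff]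
    rintro _ ⟨g, rfl⟩
    exact LinearMap.ext fun f => (Lap_tr g f).symm

lemma inv_comm (D : InvOp) (g : G) (f : Smooth) : D.val (tr g f) = tr g (D.val f) := by
  have h := D.property.2
  rw [SetLike.mem_coe, Subalgebra.mem_centralizer_iff] at h
  exact (LinearMap.congr_fun (h _ ⟨g, rfl⟩) f).symm

lemma invDiffOp_eq : InvDiffOp G (Subtype.val : Smooth → X → ℂ) = InvOp := by
  have h1 : {D : Module.End ℂ Smooth | ∃ a : Smooth, ∀ f, D f = a * f} =
      Set.range (fun a : Smooth => LinearMap.mulLeft ℂ a) := by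
    ext D
    exact ⟨fun ⟨a, ha⟩ => ⟨a, (LinearMap.ext ha).symm⟩, fun ⟨a, ha⟩ => ⟨a, fun f => ha ▸ rfl⟩⟩
  have h2 : {D : Module.End ℂ Smooth | ∃ v : Fin 3 → ℝ, ∀ f x,
      (D f).val x = fderiv ℝ (ext f.val) x.val v} = Set.range pd := by
    ext D
    exact ⟨fun ⟨v, hv⟩ => ⟨v, (LinearMap.ext fun f => Smooth.ext' (hv f)).symm⟩,
      fun ⟨v, hv⟩ => ⟨v, fun f x => hv ▸ rfl⟩⟩
  have h3 : {T : Module.End ℂ Smooth | ∃ g : G, ∀ f x, (T f).val x = f.val (g⁻¹ • x)} =
      Set.range tr := by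
    ext D
    exact ⟨fun ⟨g, hg⟩ => ⟨g, (LinearMap.ext fun f => Smooth.ext' (hg f)).symm⟩,
      fun ⟨g, hg⟩ => ⟨g, fun f x => hg ▸ rfl⟩⟩
  rw [InvDiffOp, h1, h2, h3]
  rfl

end Pool.Agent.Lib.MP_99bfa4_al
end

-- part Pool.Agent.Lib.MP_99bfa4_al.Harmonics
section

/-! Spherical harmonics of even degree and the characters of the invariant operators. -/

open Matrix MeasureTheory Polynomial
open scoped ContDiff Topology

namespace Pool.Agent.Lib.MP_99bfa4_al

/-- Linear forms with complex coefficients. -/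
noncomputable def lin (a : Fin 3 → ℂ) : Smooth := a 0 • co 0 + a 1 • co 1 + a 2 • co 2

lemma lin_val (a : Fin 3 → ℂ) (x : X) :
    (lin a).val x = a 0 * x.val 0 + a 1 * x.val 1 + a 2 * x.val 2 := by
  simp [lin]

/-- The functions ((a.x)^2/|x|^2)^n. -/
noncomputable def fa (a : Fin 3 → ℂ) (n : ℕ) : Smooth := (Ninv * lin a ^ 2) ^ n

/-- Isotropic vectors. -/
def Iso (a : Fin 3 → ℂ) : Prop := a 0 ^ 2 + a 1 ^ 2 + a 2 ^ 2 = 0

lemma tr_fa (g : G) (a : Fin 3 → ℂ) (ha : Iso a) (n : ℕ) :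
    ∃ (b : Fin 3 → ℂ) (c : ℂ), Iso b ∧ tr g (fa a n) = c • fa b n := by
  set M := g⁻¹.val.val with hM
  have hs := sc_spec' g⁻¹
  rw [← hM] at hs
  have e (i j : Fin 3) : (M i 0 : ℂ) * M j 0 + M i 1 * M j 1 + M i 2 * M j 2 =
      ((sc g⁻¹ * (1 : Matrix (Fin 3) (Fin 3) ℝ) i j : ℝ) : ℂ) := by
    have := congrFun (congrFun hs i) j
    simp only [Matrix.mul_apply, Fin.sum_univ_three, transpose_apply, Matrix.smul_apply,
      smul_eq_mul] at this
    rw [← this]; push_cast; ring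
  have e00 := e 0 0
  have e01 := e 0 1
  have e02 := e 0 2
  have e11 := e 1 1
  have e12 := e 1 2
  have e22 := e 2 2
  simp at e00 e01 e02 e11 e12 e22
  refine ⟨fun j => a 0 * M 0 j + a 1 * M 1 j + a 2 * M 2 j, ((sc g : ℝ) : ℂ) ^ n, ?_, ?_⟩
  · unfold Iso at ha ⊢
    linear_combination a 0 ^ 2 * e00 + 2 * a 0 * a 1 * e01 + 2 * a 0 * a 2 * e02 +
      a 1 ^ 2 * e11 + 2 * a 1 * a 2 * e12 + a 2 ^ 2 * e22 + ((sc g⁻¹ : ℝ) : ℂ) * ha
  · have h1 : tr g (lin a) = lin (fun j => a 0 * M 0 j + a 1 * M 1 j + a 2 * M 2 j) :=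
      Smooth.ext' fun x => by
        rw [tr_val, lin_val, lin_val, smul_val, ← hM]
        simp [mulVec, dotProduct, Fin.sum_univ_three]
        ring
    rw [fa, ← trA_apply, map_pow, map_mul, map_pow, trA_apply, trA_apply, tr_Ninv, h1, fa,
      smul_mul_assoc, _root_.smul_pow]

/-- x0 + i x1. -/
noncomputable def zeta : Smooth := co 0 + Complex.I • co 1

/-- x0 - i x1. -/
noncomputable def zetb : Smooth := co 0 - Complex.I • co 1

/-- Generating polynomial of the spherical harmonics of degree 2 n. -/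
noncomputable def Q (n : ℕ) : Polynomial Smooth :=
  (C Ninv * (C zeta * Polynomial.X ^ 2 - C (co 2 + co 2) * Polynomial.X - C zetb) ^ 2) ^ n

/-- The spherical harmonics. -/
noncomputable def Y (n m : ℕ) : Smooth := (Q n).coeff m

lemma Q_eval (n : ℕ) (σ : ℂ) : (Q n).eval (algebraMap ℂ Smooth σ) =
    fa ![σ ^ 2 - 1, Complex.I * (σ ^ 2 + 1), -2 * σ] n := by
  have h : zeta * algebraMap ℂ Smooth σ ^ 2 - (co 2 + co 2) * algebraMap ℂ Smooth σ - zetb =
      lin ![σ ^ 2 - 1, Complex.I * (σ ^ 2 + 1), -2 * σ] := Smooth.ext' fun x => by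
    rw [lin_val]
    simp [zeta, zetb]
    ring
  simp only [Q, eval_pow, eval_mul, eval_C, eval_sub, eval_X, fa, h]

lemma Q_eval_sum (n : ℕ) (σ : ℂ) : (Q n).eval (algebraMap ℂ Smooth σ) =
    ∑ m ∈ Finset.range ((Q n).natDegree + 1), σ ^ m • Y n m := by
  rw [eval_eq_sum_range]
  refine Finset.sum_congr rfl fun m _ => ?_
  rw [← map_pow, mul_comm, ← Algebra.smul_def, Y]

lemma coeff_aux {R : Type*} [CommRing R] [Algebra ℂ R] (τ : R →ₐ[ℂ] R) (w z zb c : R)
    (W W' s : ℂ) (hs : s ≠ 0) (hWW : W * W' = s ^ 2)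
    (h1 : τ z = algebraMap ℂ R W * z) (h2 : τ zb = algebraMap ℂ R W' * zb)
    (h3 : τ c = algebraMap ℂ R s * c) (h4 : τ w = algebraMap ℂ R (s ^ 2)⁻¹ * w) (n m : ℕ) :
    τ (((C w * (C z * Polynomial.X ^ 2 - C c * Polynomial.X - C zb) ^ 2) ^ n).coeff m) =
      ((W' ^ 2 / s ^ 2) ^ n * (W / s) ^ m) •
        ((C w * (C z * Polynomial.X ^ 2 - C c * Polynomial.X - C zb) ^ 2) ^ n).coeff m := by
  set P := (C w * (C z * Polynomial.X ^ 2 - C c * Polynomial.X - C zb) ^ 2) ^ n with hP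
  set φ : ℂ →+* Polynomial R := C.comp (algebraMap ℂ R) with hφ
  have hφ' (z : ℂ) : C (algebraMap ℂ R z) = φ z := rfl
  have k1 : φ W = φ W' * φ (W / s) ^ 2 := by
    rw [← map_pow, ← map_mul]; congr 1; field_simp; linear_combination (-W) * hWW
  have k2 : φ s = φ W' * φ (W / s) := by
    rw [← map_mul]; congr 1; field_simp; linear_combination -hWW
  have k3 : φ (W' ^ 2 / s ^ 2) = φ (s ^ 2)⁻¹ * φ W' ^ 2 := by
    rw [← map_pow, ← map_mul]; congr 1; field_simp
  have key : P.map (τ : R →+* R) =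
      C (algebraMap ℂ R ((W' ^ 2 / s ^ 2) ^ n)) *
        P.comp (C (algebraMap ℂ R (W / s)) * Polynomial.X) := by
    simp only [hP, Polynomial.map_pow, Polynomial.map_mul, Polynomial.map_sub, map_C, map_X,
      pow_comp, mul_comp, sub_comp, C_comp, X_comp, RingHom.coe_coe, h1, h2, h3, h4]
    rw [hφ', hφ', map_pow φ, ← mul_pow, k3]
    congr 1
    simp only [C_mul, hφ']
    rw [k1, k2]
    ring
  have hc := congrArg (fun p => p.coeff m) key
  simp only [coeff_map, coeff_C_mul, comp_C_mul_X_coeff, RingHom.coe_coe] at hc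
  rw [hc, Algebra.smul_def, map_mul, ← map_pow]
  ring

lemma tr_rot_Y (a c s : ℝ) (hs : 0 < s) (h : a ^ 2 + c ^ 2 = s ^ 2) (n m : ℕ) :
    tr (rot a c s hs h)⁻¹ (Y n m) =
      ((((a : ℂ) - c * Complex.I) ^ 2 / (s : ℂ) ^ 2) ^ n * ((a + c * Complex.I) / s) ^ m) •
        Y n m := by
  have hs' : (s : ℂ) ≠ 0 := by exact_mod_cast hs.ne'
  have h' : (a : ℂ) ^ 2 + (c : ℂ) ^ 2 = (s : ℂ) ^ 2 := by exact_mod_cast h
  set W : ℂ := a + c * Complex.I with hW
  set W' : ℂ := a - c * Complex.I with hW'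
  have hWW : W * W' = (s : ℂ) ^ 2 := by
    rw [hW, hW', ← h']; linear_combination (-(c : ℂ) ^ 2) * Complex.I_sq
  set g := (rot a c s hs h)⁻¹ with hg
  have hx (x : X) : (g⁻¹ • x).val = !![a, -c, 0; c, a, 0; 0, 0, s] *ᵥ x.val := by
    rw [hg, inv_inv, smul_val, rot_val]
  have h1 : trA g zeta = algebraMap ℂ Smooth W * zeta := Smooth.ext' fun x => by
    rw [trA_apply, tr_val]
    simp [zeta, hx, mulVec, dotProduct, Fin.sum_univ_three, hW]
    linear_combination (-(c : ℂ) * (x.val 1 : ℂ)) * Complex.I_sq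
  have h2 : trA g zetb = algebraMap ℂ Smooth W' * zetb := Smooth.ext' fun x => by
    rw [trA_apply, tr_val]
    simp [zetb, hx, mulVec, dotProduct, Fin.sum_univ_three, hW']
    linear_combination (-(c : ℂ) * (x.val 1 : ℂ)) * Complex.I_sq
  have h3 : trA g (co 2 + co 2) = algebraMap ℂ Smooth s * (co 2 + co 2) := Smooth.ext' fun x => by
    rw [trA_apply, tr_val]
    simp [hx, mulVec, dotProduct, Fin.sum_univ_three]
    ring
  have hsc : sc (rot a c s hs h) = s ^ 2 := by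
    simp [sc, rot_val, Matrix.mul_apply, Fin.sum_univ_three, sq]
  have h4 : trA g Ninv = algebraMap ℂ Smooth ((s : ℂ) ^ 2)⁻¹ * Ninv := by
    rw [trA_apply, tr_Ninv, hg, sc_inv, hsc, Algebra.smul_def]
    push_cast
    rfl
  exact coeff_aux (trA g) Ninv zeta zetb (co 2 + co 2) W W' s hs' hWW h1 h2 h3 h4 n m

lemma rot_e3 (a c : ℝ) (h : a ^ 2 + c ^ 2 = 1 ^ 2) : rot a c 1 one_pos h • e3 = e3 := by
  apply Subtype.ext
  rw [smul_val, rot_val]
  ext i
  fin_cases i <;> simp [e3, mulVec, dotProduct, Fin.sum_univ_three]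

section Equivariant

variable (D : Module.End ℂ Smooth) (hD : ∀ g f, D (tr g f) = tr g (D f))
include hD

lemma ev_eq_zero_of_weight (f : Smooth) (a c : ℝ) (h : a ^ 2 + c ^ 2 = 1 ^ 2)
    (hf : tr (rot a c 1 one_pos h)⁻¹ f = (-1 : ℂ) • f) : ev e3 (D f) = 0 := by
  have h1 : ev e3 (D (tr (rot a c 1 one_pos h)⁻¹ f)) = ev e3 (D f) := by
    rw [hD, ev_apply, tr_val, inv_inv, rot_e3, ev_apply]
  rw [hf, map_smul, map_smul, smul_eq_mul] at h1
  linear_combination (-1 / 2 : ℂ) * h1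

lemma ev_Y_ne (n m : ℕ) (hm : m ≠ 2 * n) : ev e3 (D (Y n m)) = 0 := by
  set k : ℝ := (m : ℝ) - 2 * n with hk
  have hk0 : k ≠ 0 := by
    rw [hk, sub_ne_zero]
    exact_mod_cast hm
  set θ : ℝ := Real.pi / k with hθ
  have h : Real.cos θ ^ 2 + Real.sin θ ^ 2 = 1 ^ 2 := by simp
  apply ev_eq_zero_of_weight D hD _ _ _ h
  rw [tr_rot_Y]
  congr 1
  have e1 : ((Real.cos θ : ℝ) : ℂ) + (Real.sin θ : ℝ) * Complex.I = Complex.exp (θ * Complex.I) := by
    rw [Complex.exp_mul_I]; simp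
  have e2 : ((Real.cos θ : ℝ) : ℂ) - (Real.sin θ : ℝ) * Complex.I =
      Complex.exp (-θ * Complex.I) := by
    rw [Complex.exp_mul_I]; simp [sub_eq_add_neg]
  rw [e1, e2]
  simp only [Complex.ofReal_one, one_pow, div_one]
  rw [← pow_mul, ← Complex.exp_nat_mul, ← Complex.exp_nat_mul, ← Complex.exp_add,
    ← Complex.exp_pi_mul_I]
  congr 1
  have e3 : (Real.pi : ℂ) = θ * ((m : ℂ) - 2 * n) := by
    have : Real.pi = θ * k := by rw [hθ]; field_simp
    rw [this, hk]; push_cast; ring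
  rw [e3]; push_cast; ring

lemma ev_Q_eval (n : ℕ) (σ : ℂ) : ev e3 (D ((Q n).eval (algebraMap ℂ Smooth σ))) =
    σ ^ (2 * n) * ev e3 (D (Y n (2 * n))) := by
  rw [Q_eval_sum, map_sum, map_sum, Finset.sum_eq_single (2 * n)]
  · simp
  · intro m _ hm
    rw [map_smul, map_smul, ev_Y_ne D hD n m hm, smul_zero]
  · intro hm
    have : Y n (2 * n) = 0 := coeff_eq_zero_of_natDegree_lt (by simpa using hm)
    simp [this]

lemma ev_zeta_pow (n : ℕ) (hn : n ≠ 0) : ev e3 (D ((Ninv * zeta ^ 2) ^ n)) = 0 := by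
  have hn' : (n : ℝ) ≠ 0 := by exact_mod_cast hn
  set θ : ℝ := Real.pi / (2 * n) with hθ
  have h : Real.cos θ ^ 2 + Real.sin θ ^ 2 = 1 ^ 2 := by simp
  apply ev_eq_zero_of_weight D hD _ _ _ h
  set g := (rot (Real.cos θ) (Real.sin θ) 1 one_pos h)⁻¹ with hg
  have e1 : ((Real.cos θ : ℝ) : ℂ) + (Real.sin θ : ℝ) * Complex.I = Complex.exp (θ * Complex.I) := by
    rw [Complex.exp_mul_I]; simp
  have hx (x : X) : (g⁻¹ • x).val =
      !![Real.cos θ, -Real.sin θ, 0; Real.sin θ, Real.cos θ, 0; 0, 0, 1] *ᵥ x.val := by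
    rw [hg, inv_inv, smul_val, rot_val]
  have h1 : trA g zeta = Complex.exp (θ * Complex.I) • zeta := Smooth.ext' fun x => by
    rw [trA_apply, tr_val, ← e1]
    simp [zeta, hx, mulVec, dotProduct, Fin.sum_univ_three]
    linear_combination (-(Complex.sin θ) * (x.val 1 : ℂ)) * Complex.I_sq
  have hsc : sc (rot (Real.cos θ) (Real.sin θ) 1 one_pos h) = 1 := by
    simp [sc, rot_val, Matrix.mul_apply, Fin.sum_univ_three]
  have h4 : trA g Ninv = Ninv := by
    rw [trA_apply, tr_Ninv, hg, sc_inv, hsc]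
    simp
  rw [← trA_apply, map_pow, map_mul, map_pow, h1, h4, _root_.smul_pow, mul_smul_comm, _root_.smul_pow]
  congr 1
  rw [← pow_mul, ← Complex.exp_nat_mul, ← Complex.exp_pi_mul_I]
  congr 1
  have e3 : (Real.pi : ℂ) = θ * (2 * n) := by
    have : Real.pi = θ * (2 * n) := by rw [hθ]; field_simp
    rw [this]; push_cast; ring
  rw [e3]; push_cast; ring

end Equivariant

lemma ev_Y (n : ℕ) : ev e3 (Y n (2 * n)) = 4 ^ n := by
  have h := ev_Q_eval 1 (fun _ _ => rfl) n 1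
  rw [Q_eval] at h
  simp only [Module.End.one_apply, one_pow, one_mul] at h
  rw [← h, fa, map_pow, map_mul, map_pow, ev_apply, ev_apply, Ninv_val, lin_val, N_e3]
  simp [e3]
  norm_num

/-- The eigenvalue of an operator on the harmonics of degree 2 n. -/
noncomputable def eig (n : ℕ) (D : Module.End ℂ Smooth) : ℂ := ev e3 (D (Y n (2 * n))) / 4 ^ n

section Equivariant

variable (D : Module.End ℂ Smooth) (hD : ∀ g f, D (tr g f) = tr g (D f))
include hD

lemma ev_fa (n : ℕ) (hn : n ≠ 0) (a : Fin 3 → ℂ) (ha : Iso a) :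
    ev e3 (D (fa a n)) = eig n D * ev e3 (fa a n) := by
  unfold Iso at ha
  set β : ℂ := (a 0 + Complex.I * a 1) / 2 with hβ
  by_cases hb : β = 0
  · have h0 : a 0 + Complex.I * a 1 = 0 := by
      rw [hβ] at hb; linear_combination 2 * hb
    have h2 : a 2 = 0 := by
      have : a 2 ^ 2 = 0 := by
        linear_combination ha - (a 0 - Complex.I * a 1) * h0 - a 1 ^ 2 * Complex.I_sq
      exact pow_eq_zero_iff two_ne_zero |>.1 this
    have h1 : a 1 = Complex.I * a 0 := by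
      linear_combination (-Complex.I) * h0 + a 1 * Complex.I_sq
    have h3 : lin a = a 0 • zeta := Smooth.ext' fun x => by
      rw [lin_val, h2, h1]
      simp [zeta]
      ring
    have h4 : fa a n = (a 0 ^ 2) ^ n • (Ninv * zeta ^ 2) ^ n := by
      rw [fa, h3, _root_.smul_pow, mul_smul_comm, _root_.smul_pow]
    have h5 := ev_zeta_pow 1 (fun _ _ => rfl) n hn
    rw [Module.End.one_apply] at h5
    rw [h4, map_smul, map_smul, map_smul, ev_zeta_pow D hD n hn, h5]
    simp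
  · set σ : ℂ := a 2 / (2 * β) with hσ
    have h2 : a 2 = 2 * β * σ := by rw [hσ]; field_simp
    have h0 : a 0 = 2 * β - Complex.I * a 1 := by rw [hβ]; ring
    have h1 : a 1 = -β * (Complex.I * (σ ^ 2 + 1)) := by
      have h6 : β * (a 1 + β * (Complex.I * (σ ^ 2 + 1))) = 0 := by
        rw [h0, h2] at ha
        linear_combination (Complex.I / 4) * ha + (β * a 1 - Complex.I * a 1 ^ 2 / 4) * Complex.I_sq
      have := (mul_eq_zero.1 h6).resolve_left hb
      linear_combination this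
    have h3 : lin a = (-β) • lin ![σ ^ 2 - 1, Complex.I * (σ ^ 2 + 1), -2 * σ] :=
      Smooth.ext' fun x => by
        rw [lin_val, h0, h2, h1]
        simp [lin]
        linear_combination (β * (σ ^ 2 + 1) * (x.val 0 : ℂ)) * Complex.I_sq
    have h4 : fa a n = ((-β) ^ 2) ^ n • (Q n).eval (algebraMap ℂ Smooth σ) := by
      rw [Q_eval, fa, fa, h3, _root_.smul_pow, mul_smul_comm, _root_.smul_pow]
    have h5 := ev_Q_eval 1 (fun _ _ => rfl) n σ
    simp only [Module.End.one_apply] at h5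
    rw [h4, map_smul, map_smul, map_smul, ev_Q_eval D hD, h5, ev_Y, eig]
    simp only [smul_eq_mul]
    field_simp

lemma apply_fa (n : ℕ) (hn : n ≠ 0) (a : Fin 3 → ℂ) (ha : Iso a) :
    D (fa a n) = eig n D • fa a n := Smooth.ext' fun x => by
  obtain ⟨k, rfl⟩ := exists_smul_e3 x
  obtain ⟨b, c, hb, hbc⟩ := tr_fa k⁻¹ a ha n
  have h1 : (D (fa a n)).val (k • e3) = ev e3 (D (tr k⁻¹ (fa a n))) := by
    rw [hD, ev_apply, tr_val, inv_inv]
  have h2 : (fa a n).val (k • e3) = ev e3 (tr k⁻¹ (fa a n)) := by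
    rw [ev_apply, tr_val, inv_inv]
  have h3 : (eig n D • fa a n).val (k • e3) = eig n D * (fa a n).val (k • e3) := rfl
  rw [h3, h1, h2, hbc, map_smul, map_smul, map_smul, ev_fa D hD n hn b hb]
  simp only [smul_eq_mul]
  ring

lemma apply_Y (n : ℕ) (hn : n ≠ 0) (m : ℕ) : D (Y n m) = eig n D • Y n m := by
  by_cases hm : m < (Q n).natDegree + 1
  swap
  · have : Y n m = 0 := coeff_eq_zero_of_natDegree_lt (by omega)
    simp [this]
  refine Smooth.ext' fun x => ?_
  set z : ℕ → ℂ := fun j => ev x (D (Y n j)) - eig n D * ev x (Y n j) with hz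
  have h1 : ∀ σ : ℂ, ∑ j ∈ Finset.range ((Q n).natDegree + 1), z j * σ ^ j = 0 := by
    intro σ
    have h2 := apply_fa D hD n hn ![σ ^ 2 - 1, Complex.I * (σ ^ 2 + 1), -2 * σ] (by
      simp [Iso]
      linear_combination (σ ^ 2 + 1) ^ 2 * Complex.I_sq)
    rw [← Q_eval, Q_eval_sum] at h2
    have h3 := congrArg (ev x) h2
    simp only [map_sum, map_smul, smul_eq_mul, Finset.mul_sum] at h3
    simp only [hz, sub_mul, Finset.sum_sub_distrib]
    rw [sub_eq_zero]
    refine Eq.trans (Finset.sum_congr rfl fun j _ => mul_comm _ _) (h3.trans ?_)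
    exact Finset.sum_congr rfl fun j _ => by ring
  have h4 : (∑ j ∈ Finset.range ((Q n).natDegree + 1), monomial j (z j) : ℂ[X]) = 0 := by
    apply Polynomial.funext
    intro σ
    simp only [eval_finsetSum, eval_monomial, eval_zero]
    exact h1 σ
  have h5 := congrArg (fun p => p.coeff m) h4
  simp only [finsetSum_coeff, coeff_monomial, coeff_zero, Finset.sum_ite_eq', Finset.mem_range,
    hm, if_true] at h5
  exact sub_eq_zero.1 h5

end Equivariant

/-- The character of the algebra of invariant operators on the harmonics of degree 2 n + 2. -/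
noncomputable def lam (n : ℕ) : InvOp →ₐ[ℂ] ℂ where
  toFun D := eig (n + 1) D.val
  map_one' := by
    simp only [eig, OneMemClass.coe_one, Module.End.one_apply, ev_Y]
    field_simp
  map_mul' D E := by
    simp only [MulMemClass.coe_mul]
    rw [eig, Module.End.mul_apply, apply_Y E.val (inv_comm E) _ (by omega), map_smul, map_smul,
      smul_eq_mul, mul_div_assoc, mul_comm]
    rfl
  map_zero' := by simp [eig]
  map_add' D E := by simp [eig, add_div]
  commutes' c := by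
    have : ((algebraMap ℂ InvOp c : InvOp) : Module.End ℂ Smooth) =
      algebraMap ℂ (Module.End ℂ Smooth) c := rfl
    simp only [eig, this, Module.algebraMap_end_apply, map_smul, ev_Y, smul_eq_mul]
    simp

lemma ev_pd_pow (v : Fin 3 → ℝ) (F : Smooth) (hF : ev e3 F = 1) (n : ℕ) :
    ev e3 (pd v (F ^ n)) = n * ev e3 (pd v F) ∧
    ev e3 (pd v (pd v (F ^ n))) =
      n * ev e3 (pd v (pd v F)) + n * (n - 1) * ev e3 (pd v F) ^ 2 := by
  induction n with
  | zero => simp [pd_one]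
  | succ n ih =>
    obtain ⟨ih1, ih2⟩ := ih
    rw [pow_succ]
    simp only [pd_mul, map_add, map_mul, map_pow, hF, ih1, ih2]
    push_cast
    constructor <;> ring

lemma eig_Lap (n : ℕ) (hn : n ≠ 0) : eig n Lap = -(2 * n) * (2 * n + 1) := by
  set a : Fin 3 → ℂ := ![Complex.I, 0, 1] with ha
  have h := ev_fa Lap Lap_tr n hn a (by simp [Iso, ha])
  set F : Smooth := Ninv * (lin a * lin a) with hF
  have hw : ev e3 Ninv = 1 := by simp [ev_apply, Ninv_val, N_e3]
  have hu : ev e3 (lin a) = 1 := by simp [ev_apply, lin_val, ha, e3]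
  have hN : ev e3 Nn = 1 := by simp [ev_apply, Nn_val, N_e3]
  have hF1 : ev e3 F = 1 := by simp [hF, hw, hu]
  have hfa : fa a n = F ^ n := by rw [fa, hF, sq]
  have c0 : ev e3 (co 0) = 0 := by simp [ev_apply, e3]
  have c1 : ev e3 (co 1) = 0 := by simp [ev_apply, e3]
  have c2 : ev e3 (co 2) = 1 := by simp [ev_apply, e3]
  have hl (v : Fin 3 → ℝ) : pd v (lin a) =
      algebraMap ℂ Smooth (Complex.I * v 0 + v 2) := by
    simp only [lin, map_add, map_smul, pd_co]
    simp [ha, Algebra.smul_def]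
  have hNn (v : Fin 3 → ℝ) : pd v Nn = algebraMap ℂ Smooth (2 * v 0) * co 0 +
      algebraMap ℂ Smooth (2 * v 1) * co 1 + algebraMap ℂ Smooth (2 * v 2) * co 2 := by
    simp only [Nn, map_add, pd_mul, pd_co, map_mul, map_ofNat]
    ring
  have p1 (v : Fin 3 → ℝ) : ev e3 (pd v F) = 2 * Complex.I * v 0 := by
    simp only [hF, pd_mul, pd_Ninv, hl, hNn, map_add, map_mul, map_neg, hw, hu, c0, c1, c2,
      AlgHom.commutes]
    simp
    ring
  have p2 (v : Fin 3 → ℝ) : ev e3 (pd v (pd v F)) =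
      -2 * ((v 0 : ℂ) ^ 2 + (v 1 : ℂ) ^ 2 + (v 2 : ℂ) ^ 2) + 8 * (v 2 : ℂ) ^ 2 -
        8 * (Complex.I * v 0 + v 2) * v 2 + 2 * (Complex.I * v 0 + v 2) ^ 2 := by
    simp only [hF, pd_mul, pd_Ninv, hl, hNn, map_add, map_neg, pd_algebraMap, pd_co]
    simp only [map_add, map_mul, map_neg, hw, hu, c0, c1, c2, AlgHom.commutes, map_zero]
    simp
    ring
  rw [hfa, map_pow (ev e3), hF1, one_pow, mul_one, Lap_apply] at h
  rw [← h, map_mul, hN, map_add, map_add, (ev_pd_pow _ F hF1 n).2, (ev_pd_pow _ F hF1 n).2,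
    (ev_pd_pow _ F hF1 n).2, p1, p1, p1, p2, p2, p2]
  simp
  linear_combination (4 * n * (n - 1) : ℂ) * Complex.I_sq

lemma lam_injective : Function.Injective lam := by
  intro n m h
  have h1 : lam n ⟨Lap, Lap_mem⟩ = lam m ⟨Lap, Lap_mem⟩ := by rw [h]
  change eig (n + 1) Lap = eig (m + 1) Lap at h1
  rw [eig_Lap _ (by omega), eig_Lap _ (by omega)] at h1
  have h2 : (2 * (n + 1)) * (2 * (n + 1) + 1) = (2 * (m + 1)) * (2 * (m + 1) + 1) := by
    have : ((2 * (n + 1) * (2 * (n + 1) + 1) : ℕ) : ℂ) =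
        ((2 * (m + 1) * (2 * (m + 1) + 1) : ℕ) : ℂ) := by
      push_cast at h1 ⊢
      linear_combination -h1
    exact_mod_cast this
  nlinarith

/-- For every element g of G there is a nonzero g-invariant joint eigenfunction. -/
lemma exists_eigen (g : G) (n : ℕ) : ∃ f : Smooth, f ≠ 0 ∧ (∀ x, f.val (g • x) = f.val x) ∧
    ∀ D : InvOp, D.val f = lam n D • f := by
  obtain ⟨k, a, c, s, hs, hac, rfl⟩ := exists_axis g
  refine ⟨tr k (Y (n + 1) (2 * (n + 1))), ?_, ?_, ?_⟩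
  · intro h
    have h1 : (tr k (Y (n + 1) (2 * (n + 1)))).val (k • e3) = 4 ^ (n + 1) := by
      rw [tr_val, inv_smul_smul, ← ev_apply, ev_Y]
    rw [h] at h1
    exact absurd h1.symm (pow_ne_zero _ (by norm_num))
  · intro x
    have hs' : (s : ℂ) ≠ 0 := by exact_mod_cast hs.ne'
    have h' : (a : ℂ) ^ 2 + (c : ℂ) ^ 2 = (s : ℂ) ^ 2 := by exact_mod_cast hac
    have h1 := tr_rot_Y a c s hs hac (n + 1) (2 * (n + 1))
    have h2 : (((a : ℂ) - c * Complex.I) ^ 2 / (s : ℂ) ^ 2) * ((a + c * Complex.I) / s) ^ 2 = 1 := by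
      have : ((a : ℂ) - c * Complex.I) * (a + c * Complex.I) = (s : ℂ) ^ 2 := by
        rw [← h']; linear_combination (-(c : ℂ) ^ 2) * Complex.I_sq
      field_simp
      rw [← mul_pow, this]
      ring
    rw [pow_mul, ← mul_pow, h2, one_pow, one_smul] at h1
    have h3 := congrArg (fun f : Smooth => f.val (k⁻¹ • x)) h1
    simp only [tr_val, inv_inv] at h3
    rw [tr_val, tr_val, mul_smul, mul_smul, inv_smul_smul, h3]
  · intro D
    rw [inv_comm, apply_Y D.val (inv_comm D) _ (by omega), map_smul]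
    rfl

end Pool.Agent.Lib.MP_99bfa4_al
end
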