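import Pool.Agent.Lib.MP_99bfa4_al.Group

/-! The invariant measure, fundamental domains and proper discontinuity. -/

open Matrix MeasureTheory Set
open scoped ContDiff Topology ENNReal

namespace Pool.Agent.Lib.MP_99bfa4_al

/-- The density. -/
noncomputable def dens (x : Fin 3 → ℝ) : ℝ≥0∞ := ENNReal.ofReal ((x ⬝ᵥ x) ^ (-(3 / 2) : ℝ))

lemma measurable_dens : Measurable dens := by
  unfold dens dotProduct
  fun_prop

lemma emb : MeasurableEmbedding (Subtype.val : X → (Fin 3 → ℝ)) :=
  MeasurableEmbedding.subtype_coe isOpen_ne_zero.measurableSet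

lemma mu_apply {s : Set X} (hs : MeasurableSet s) :
    mu s = ∫⁻ x in Subtype.val '' s, dens x := by
  rw [mu, emb.comap_apply, withDensity_apply _ (emb.measurableSet_image.2 hs)]
  rfl

lemma dens_smul (g : G) (x : X) :
    dens x.val = ENNReal.ofReal g.val.val.det * dens (g.val.val *ᵥ x.val) := by
  have h1 : (g.val.val *ᵥ x.val) ⬝ᵥ (g.val.val *ᵥ x.val) = sc g * N x := dot_mulVec g x.val
  have h2 : g.val.val.det * sc g ^ (-(3 / 2) : ℝ) = 1 := by
    have h3 : g.val.val.det = sc g ^ ((3 / 2) : ℝ) := by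
      have h4 : (sc g ^ ((3 / 2) : ℝ)) ^ 2 = sc g ^ 3 := by
        rw [← Real.rpow_natCast, ← Real.rpow_mul (sc_pos g).le, ← Real.rpow_natCast]
        norm_num
      exact (pow_left_inj₀ (det_pos g).le (Real.rpow_nonneg (sc_pos g).le _) two_ne_zero).1
        (by rw [h4, det_sq])
    rw [h3, ← Real.rpow_add (sc_pos g)]
    simp
  unfold dens
  rw [h1, ← ENNReal.ofReal_mul (det_pos g).le, Real.mul_rpow (sc_pos g).le (N_pos x).le,
    ← mul_assoc, h2, one_mul]
  rfl

instance mu_invariant : SMulInvariantMeasure G X mu where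
  measure_preimage_smul g s hs := by
    have hm : Measurable fun x : X => g • x := (continuous_const_smul g).measurable
    set L : (Fin 3 → ℝ) →ₗ[ℝ] (Fin 3 → ℝ) := Matrix.toLin' g.val.val with hL
    have hLd : LinearMap.det L = g.val.val.det := by rw [hL, LinearMap.det_toLin']
    have hLm : Measurable L := L.continuous_of_finiteDimensional.measurable
    have hs' : MeasurableSet (Subtype.val '' s) := emb.measurableSet_image.2 hs
    have h1 : Subtype.val '' ((fun x : X => g • x) ⁻¹' s) = L ⁻¹' (Subtype.val '' s) := by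
      ext y
      constructor
      · rintro ⟨x, hx, rfl⟩
        exact ⟨g • x, hx, rfl⟩
      · rintro ⟨x, hx, hxy⟩
        have hy : y ≠ 0 := by
          rintro rfl
          exact x.property (by rw [hxy, map_zero])
        refine ⟨⟨y, hy⟩, ?_, rfl⟩
        have : g • (⟨y, hy⟩ : X) = x := Subtype.ext hxy.symm
        rw [mem_preimage, this]
        exact hx
    have h2 : ∫⁻ x in Subtype.val '' ((fun x : X => g • x) ⁻¹' s), dens x =
        ∫⁻ x in Subtype.val '' ((fun x : X => g • x) ⁻¹' s),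
          ENNReal.ofReal g.val.val.det * dens (L x) := by
      apply setLIntegral_congr_fun (emb.measurableSet_image.2 (hm hs))
      rintro _ ⟨x, -, rfl⟩
      exact dens_smul g x
    rw [mu_apply (hm hs), mu_apply hs, h2, h1, lintegral_const_mul' _ _ ENNReal.ofReal_ne_top,
      ← setLIntegral_map hs' measurable_dens hLm,
      Measure.map_linearMap_addHaar_eq_smul_addHaar _ (by rw [hLd]; exact (det_pos g).ne'),
      hLd, Measure.restrict_smul, lintegral_smul_measure, smul_eq_mul, ← mul_assoc,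
      ← ENNReal.ofReal_mul (det_pos g).le, abs_of_pos (inv_pos.2 (det_pos g)),
      mul_inv_cancel₀ (det_pos g).ne', ENNReal.ofReal_one, one_mul]

instance mu_finite : IsFiniteMeasureOnCompacts mu where
  lt_top_of_isCompact K hK := by
    rw [mu_apply hK.measurableSet]
    have hc : Continuous fun x : X => N x ^ (-(3 / 2) : ℝ) :=
      continuous_N.rpow_const fun x => Or.inl (N_pos x).ne'
    obtain ⟨B, hB⟩ := hK.bddAbove_image hc.continuousOn
    have hK' : IsCompact (Subtype.val '' K) := hK.image continuous_subtype_val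
    calc ∫⁻ x in Subtype.val '' K, dens x ≤ ∫⁻ _ in Subtype.val '' K, ENNReal.ofReal B := by
          apply setLIntegral_mono' hK'.measurableSet
          rintro _ ⟨x, hx, rfl⟩
          exact ENNReal.ofReal_le_ofReal (hB ⟨x, hx, rfl⟩)
      _ < ⊤ := by
          rw [setLIntegral_const]
          exact ENNReal.mul_lt_top ENNReal.ofReal_lt_top hK'.measure_lt_top

instance mu_openPos : mu.IsOpenPosMeasure where
  open_pos U hU hne := by
    rw [mu_apply hU.measurableSet]
    have hU' : IsOpen (Subtype.val '' U) := isOpen_ne_zero.isOpenMap_subtype_val U hU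
    intro h
    rw [setLIntegral_eq_zero_iff hU'.measurableSet measurable_dens] at h
    have h2 : ∀ᵐ x : Fin 3 → ℝ, x ∉ Subtype.val '' U := by
      filter_upwards [h] with x hx
      rintro ⟨y, hy, rfl⟩
      have h3 := hx ⟨y, hy, rfl⟩
      have h4 : 0 < N y ^ (-(3 / 2) : ℝ) := Real.rpow_pos_of_pos (N_pos y) _
      exact absurd (ENNReal.ofReal_eq_zero.1 h3) (not_le.2 h4)
    exact hU'.measure_ne_zero volume (hne.image _) (measure_eq_zero_iff_ae_notMem.2 h2)

lemma mu_ne_zero : mu ≠ 0 := by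
  intro h
  have := isOpen_univ.measure_ne_zero mu ⟨e3, mem_univ _⟩
  rw [h] at this
  exact this rfl

/-- The shell. -/
def shell (t : ℝ) : Set X := {x | 1 ≤ N x ∧ N x < t}

lemma measurableSet_shell (t : ℝ) : MeasurableSet (shell t) :=
  (measurableSet_le measurable_const continuous_N.measurable).inter
    (measurableSet_lt continuous_N.measurable measurable_const)

lemma isCompact_shell (t : ℝ) : IsCompact {x : X | 1 ≤ N x ∧ N x ≤ t} := by
  rw [Topology.IsEmbedding.subtypeVal.isCompact_iff]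
  have h1 : Subtype.val '' {x : X | 1 ≤ N x ∧ N x ≤ t} =
      {y : Fin 3 → ℝ | 1 ≤ y ⬝ᵥ y ∧ y ⬝ᵥ y ≤ t} := by
    ext y
    constructor
    · rintro ⟨x, hx, rfl⟩
      exact hx
    · intro hy
      refine ⟨⟨y, ?_⟩, hy, rfl⟩
      rintro rfl
      have := hy.1
      simp at this
      linarith
  rw [h1]
  apply Metric.isCompact_of_isClosed_isBounded
  · have hc : Continuous fun y : Fin 3 → ℝ => y ⬝ᵥ y := by fun_prop
    exact (isClosed_le continuous_const hc).inter (isClosed_le hc continuous_const)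
  · rw [Metric.isBounded_iff_subset_closedBall 0]
    refine ⟨t, fun y hy => ?_⟩
    obtain ⟨h2, h3⟩ := hy
    rw [mem_closedBall_zero_iff, pi_norm_le_iff_of_nonneg (by linarith)]
    simp only [dotProduct, Fin.sum_univ_three] at h2 h3
    intro i
    rw [Real.norm_eq_abs, abs_le]
    fin_cases i <;> simp <;> constructor <;>
      nlinarith [mul_self_nonneg (y 0), mul_self_nonneg (y 1), mul_self_nonneg (y 2),
        mul_self_nonneg (y 0 - 1), mul_self_nonneg (y 1 - 1), mul_self_nonneg (y 2 - 1),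
        mul_self_nonneg (y 0 + 1), mul_self_nonneg (y 1 + 1), mul_self_nonneg (y 2 + 1)]

lemma sub_smul_eq (L : Subgroup G) (γ : L) (x : X) : γ • x = (γ : G) • x := rfl

lemma fundamental (g : G) (hg : 1 < sc g) :
    IsFundamentalDomain (Subgroup.zpowers g) (shell (sc g)) mu := by
  apply IsFundamentalDomain.mk' (measurableSet_shell _).nullMeasurableSet
  intro x
  obtain ⟨n, h1, h2⟩ := exists_mem_Ico_zpow (N_pos x) hg
  have h0 : 0 < sc g := sc_pos g
  have key (m : ℤ) : (g ^ m) • x ∈ shell (sc g) ↔ m = -n := by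
    simp only [shell, mem_ofPred_eq, N_smul, sc_zpow]
    constructor
    · rintro ⟨h3, h4⟩
      have h5 : sc g ^ (0 : ℤ) < sc g ^ (m + (n + 1)) := by
        rw [zpow_zero, zpow_add₀ h0.ne']
        exact lt_of_le_of_lt h3 (mul_lt_mul_of_pos_left h2 (zpow_pos h0 _))
      have h6 : sc g ^ (m + n) < sc g ^ (1 : ℤ) := by
        rw [zpow_one, zpow_add₀ h0.ne']
        exact lt_of_le_of_lt (mul_le_mul_of_nonneg_left h1 (zpow_pos h0 _).le) h4
      rw [zpow_lt_zpow_iff_right₀ hg] at h5 h6
      omega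
    · rintro rfl
      have h7 : 0 < sc g ^ n := zpow_pos h0 _
      rw [zpow_add₀ h0.ne', zpow_one] at h2
      rw [_root_.zpow_neg, ← div_eq_inv_mul, le_div_iff₀ h7, div_lt_iff₀ h7]
      exact ⟨by linarith, by linarith⟩
  refine ⟨⟨g ^ (-n), Subgroup.zpow_mem_zpowers g _⟩, (key _).2 rfl, ?_⟩
  rintro ⟨_, m, rfl⟩ hm
  have := (key m).1 hm
  subst this
  rfl

lemma discontinuous (g : G) (hg : 1 < sc g) : Discontinuous (Subgroup.zpowers g) := by
  have h0 : 0 < sc g := sc_pos g
  constructor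
  · refine ⟨fun {K L} hK hL => ?_⟩
    have hc : Continuous fun x : X => (N x)⁻¹ := continuous_N.inv₀ fun x => (N_pos x).ne'
    obtain ⟨A, hA⟩ := (hK.union hL).bddAbove_image continuous_N.continuousOn
    obtain ⟨B, hB⟩ := (hK.union hL).bddAbove_image hc.continuousOn
    obtain ⟨k, hk⟩ := pow_unbounded_of_one_lt (A * B) hg
    have ratio (x y : X) (hx : x ∈ K ∪ L) (hy : y ∈ K ∪ L) (m : ℤ) (h : N y = sc g ^ m * N x) :
        m < k := by
      have h1 : N y ≤ A := hA ⟨y, hy, rfl⟩
      have h2 : (N x)⁻¹ ≤ B := hB ⟨x, hx, rfl⟩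
      have h3 : sc g ^ m = N y * (N x)⁻¹ := by
        rw [h, mul_assoc, mul_inv_cancel₀ (N_pos x).ne', mul_one]
      have h4 : sc g ^ m < sc g ^ (k : ℤ) := by
        rw [h3, zpow_natCast]
        exact lt_of_le_of_lt (mul_le_mul h1 h2 (inv_pos.2 (N_pos x)).le
          ((N_pos y).le.trans h1)) hk
      exact (zpow_lt_zpow_iff_right₀ hg).1 h4
    apply ((Set.finite_Icc (-(k : ℤ)) k).image
      (fun m => (⟨g ^ m, Subgroup.zpow_mem_zpowers g m⟩ : Subgroup.zpowers g))).subset
    rintro ⟨_, m, rfl⟩ ⟨_, ⟨x, hx, rfl⟩, hy⟩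
    refine ⟨m, ?_, rfl⟩
    have h5 : N ((g ^ m) • x) = sc g ^ m * N x := by rw [N_smul, sc_zpow]
    have h6 := ratio x ((g ^ m) • x) (Or.inl hx) (Or.inr hy) m h5
    have h7 := ratio ((g ^ m) • x) x (Or.inr hy) (Or.inl hx) (-m) (by
      rw [h5, ← mul_assoc, ← zpow_add₀ h0.ne']; simp)
    exact ⟨by omega, by omega⟩
  · rintro _ ⟨m, rfl⟩ x hx
    have h1 : sc g ^ m * N x = N x := by rw [← sc_zpow, ← N_smul]; exact congrArg N hx
    have h2 : sc g ^ m = sc g ^ (0 : ℤ) := by
      rw [zpow_zero]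
      exact mul_right_cancel₀ (N_pos x).ne' (by rw [h1, one_mul])
    have h3 : m = 0 := zpow_right_injective₀ h0 hg.ne' h2
    simp [h3]

end Pool.Agent.Lib.MP_99bfa4_al
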