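import Mathlib

/-! Schur's lemma for central elements in irreducible unitary representations. -/

namespace Pool.Agent.Lib.MP_99bfa4_al

universe u

theorem schur_central {Γ : Type*} [Group Γ] {V : Type u} [NormedAddCommGroup V]
    [InnerProductSpace ℂ V] [CompleteSpace V] [Nontrivial V] (π : Γ →* (V ≃ₗᵢ[ℂ] V))
    (hirr : ∀ W : Submodule ℂ V, IsClosed (W : Set V) → (∀ g, ∀ v ∈ W, π g v ∈ W) → W = ⊥ ∨ W = ⊤)
    (z : Γ) (hz : ∀ g, g * z = z * g) : ∃ c : ℂ, ‖c‖ = 1 ∧ ∀ v, π z v = c • v := by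
  let ρ : Γ → (V →L[ℂ] V) := fun g => (π g).toContinuousLinearEquiv
  have ρ_apply (g : Γ) (v : V) : ρ g v = π g v := rfl
  have ρ_mul (g h : Γ) : ρ (g * h) = ρ g * ρ h := by
    ext v
    simp [ρ_apply]
  have ρ_star (g : Γ) : star (ρ g) = ρ g⁻¹ := by
    rw [ContinuousLinearMap.star_eq_adjoint]
    symm
    rw [ContinuousLinearMap.eq_adjoint_iff]
    intro x y
    rw [ρ_apply, ρ_apply, ← (π g).inner_map_map]
    simp
  have hz' (g : Γ) : g * z⁻¹ = z⁻¹ * g := by
    rw [eq_inv_mul_iff_mul_eq, ← mul_assoc, ← hz, mul_inv_cancel_right]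
  set U := ρ z with hU
  have c1 (g : Γ) : Commute U (ρ g) := by
    rw [Commute, SemiconjBy, hU, ← ρ_mul, ← ρ_mul, hz]
  have c2 (g : Γ) : Commute (star U) (ρ g) := by
    rw [Commute, SemiconjBy, hU, ρ_star, ← ρ_mul, ← ρ_mul, hz']
  have hn : IsStarNormal U := ⟨c2 z⟩
  have ker_bot (f : ℂ → ℂ) (hf : cfc f U ≠ 0) : ∀ v, cfc f U v = 0 → v = 0 := by
    rcases hirr (cfc f U).ker (cfc f U).isClosed_ker (fun g v hv => by
      have h1 := congrArg (fun T : V →L[ℂ] V => T v) ((c1 g).cfc (c2 g) f).eq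
      simp only [mul_apply_eq_comp] at h1
      have hv' : cfc f U v = 0 := hv
      change cfc f U (ρ g v) = 0
      rw [h1, hv', map_zero]) with h | h
    · intro v hv
      have : v ∈ (cfc f U).ker := hv
      rw [h] at this
      exact this
    · exfalso
      apply hf
      ext v
      have : v ∈ (cfc f U).ker := by rw [h]; trivial
      exact this
  have ne_zero (f : ℂ → ℂ) (hf : Continuous f) (a : ℂ) (ha : a ∈ spectrum ℂ U) (hfa : f a ≠ 0) :
      cfc f U ≠ 0 := by
    intro h
    have h1 : f a ∈ spectrum ℂ (cfc f U) := by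
      rw [cfc_map_spectrum f U hn hf.continuousOn]
      exact ⟨a, ha, rfl⟩
    rw [h, spectrum.zero_eq] at h1
    exact hfa h1
  have hsub : (spectrum ℂ U).Subsingleton := by
    intro a ha b hb
    by_contra hab
    set r : ℝ := dist a b / 2 with hr
    have hr0 : 0 < r := by
      have := dist_pos.2 hab
      positivity
    let f : ℂ → ℂ := fun w => ((max 0 (r - dist w a) : ℝ) : ℂ)
    let g : ℂ → ℂ := fun w => ((max 0 (r - dist w b) : ℝ) : ℂ)
    have hf : Continuous f := by fun_prop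
    have hg : Continuous g := by fun_prop
    have hfa : f a ≠ 0 := by simp [f, hr0.le, hr0.ne']
    have hgb : g b ≠ 0 := by simp [g, hr0.le, hr0.ne']
    have hfg : ∀ w, f w * g w = 0 := by
      intro w
      have h1 := dist_triangle_left a b w
      by_cases h2 : r ≤ dist w a
      · have : max 0 (r - dist w a) = 0 := max_eq_left (by linarith)
        simp [f, this]
      · have : max 0 (r - dist w b) = 0 := max_eq_left (by linarith)
        simp [g, this]
    have h1 : cfc f U * cfc g U = 0 := by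
      rw [← cfc_mul f g U hf.continuousOn hg.continuousOn]
      simp [hfg]
    apply ne_zero g hg b hb hgb
    ext v
    apply ker_bot f (ne_zero f hf a ha hfa)
    have := congrArg (fun T : V →L[ℂ] V => T v) h1
    simpa using this
  obtain ⟨c, hc⟩ := spectrum.nonempty U
  have hUc : U = algebraMap ℂ (V →L[ℂ] V) c := by
    rw [← cfc_id ℂ U hn, ← cfc_const c U hn]
    exact cfc_congr fun w hw => hsub hw hc
  have h1 (v : V) : π z v = c • v := by
    rw [← ρ_apply, ← hU, hUc]
    simp [Algebra.algebraMap_eq_smul_one]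
  refine ⟨c, ?_, h1⟩
  obtain ⟨v, hv⟩ := exists_ne (0 : V)
  have h2 := (π z).norm_map v
  rw [h1, norm_smul] at h2
  have h3 : ‖v‖ ≠ 0 := norm_ne_zero_iff.2 hv
  exact mul_right_cancel₀ h3 (by rw [h2, one_mul])

end Pool.Agent.Lib.MP_99bfa4_al
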