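import Pool.Agent.Lib.MP_99bfa4_al.Harmonics
import Pool.Agent.Lib.MP_99bfa4_al.Meas
import Pool.Agent.Lib.MP_99bfa4_al.Schur

/-! The pieces of the counterexample. -/

open Matrix MeasureTheory Set
open scoped ContDiff Topology ENNReal

namespace Pool.Agent.Lib.MP_99bfa4_al

universe u

lemma continuous_of_mat {Z : Type*} [TopologicalSpace Z] (f : Z → G)
    (h1 : Continuous fun z => (f z).val.val) (h2 : Continuous fun z => (f z)⁻¹.val.val) :
    Continuous f :=
  continuous_induced_rng.2 (Units.continuous_iff.2 ⟨h1, h2⟩)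

/-- The two parameter abelian subgroup of similitudes with axis e3. -/
noncomputable def Phi (u θ : ℝ) : G :=
  rot (Real.exp u * Real.cos θ) (Real.exp u * Real.sin θ) (Real.exp u) (Real.exp_pos u) (by
    linear_combination Real.exp u ^ 2 * Real.cos_sq_add_sin_sq θ)

lemma Phi_add (u θ v η : ℝ) : Phi (u + v) (θ + η) = Phi u θ * Phi v η := by
  apply G_ext
  have : (Phi u θ * Phi v η).val.val = (Phi u θ).val.val * (Phi v η).val.val := rfl
  rw [this, Phi, Phi, Phi, rot_val, rot_val, rot_val]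
  ext i j
  fin_cases i <;> fin_cases j <;>
    simp [Matrix.mul_apply, Fin.sum_univ_three, Real.exp_add, Real.cos_add, Real.sin_add] <;> ring

lemma Phi_zero : Phi 0 0 = 1 := by
  apply G_ext
  rw [Phi, rot_val]
  ext i j
  fin_cases i <;> fin_cases j <;> simp

lemma Phi_inv (u θ : ℝ) : (Phi u θ)⁻¹ = Phi (-u) (-θ) := by
  rw [inv_eq_iff_mul_eq_one, ← Phi_add, add_neg_cancel, add_neg_cancel, Phi_zero]

lemma continuous_Phi : Continuous fun p : ℝ × ℝ => Phi p.1 p.2 := by
  have h : Continuous fun p : ℝ × ℝ => (Phi p.1 p.2).val.val := by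
    simp only [Phi, rot_val]
    refine continuous_matrix fun i j => ?_
    fin_cases i <;> fin_cases j <;> simp <;> fun_prop
  apply continuous_of_mat _ h
  simp only [Phi_inv]
  exact h.comp (continuous_neg (G := ℝ × ℝ))

lemma Phi_central (u : ℝ) (g : G) : g * Phi u 0 = Phi u 0 * g := by
  have h : (Phi u 0).val.val = Real.exp u • (1 : Matrix (Fin 3) (Fin 3) ℝ) := by
    rw [Phi, rot_val]
    ext i j
    fin_cases i <;> fin_cases j <;> simp
  apply G_ext
  have h1 : (g * Phi u 0).val.val = g.val.val * (Phi u 0).val.val := rfl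
  have h2 : (Phi u 0 * g).val.val = (Phi u 0).val.val * g.val.val := rfl
  rw [h1, h2, h]
  simp

lemma sc_Phi (u θ : ℝ) : sc (Phi u θ) = Real.exp u ^ 2 := by
  simp [sc, Phi, rot_val, Matrix.mul_apply, Fin.sum_univ_three, sq]

lemma rot_eq_Phi (a c s : ℝ) (hs : 0 < s) (h : a ^ 2 + c ^ 2 = s ^ 2) :
    ∃ u θ, rot a c s hs h = Phi u θ := by
  set w : ℂ := ⟨a, c⟩ with hw
  have hn : ‖w‖ = s := by
    rw [Complex.norm_eq_sqrt_sq_add_sq, hw]
    simp only
    rw [h, Real.sqrt_sq hs.le]
  have h1 := Complex.norm_mul_cos_arg w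
  have h2 := Complex.norm_mul_sin_arg w
  rw [hn] at h1 h2
  refine ⟨Real.log s, w.arg, G_ext ?_⟩
  rw [Phi, rot_val, rot_val, Real.exp_log hs, h1, h2]

lemma G_connected : IsConnected (G : Set (GL (Fin 3) ℝ)) := by
  rw [isConnected_iff_connectedSpace]
  change ConnectedSpace G
  rw [connectedSpace_iff_univ]
  refine ⟨⟨1, mem_univ _⟩, isPreconnected_of_forall (1 : G) fun g _ => ?_⟩
  obtain ⟨k, a, c, s, hs, hac, rfl⟩ := exists_axis g
  obtain ⟨u, θ, h⟩ := rot_eq_Phi a c s hs hac
  refine ⟨range fun p : ℝ × ℝ => k * Phi p.1 p.2 * k⁻¹, subset_univ _, ⟨(0, 0), ?_⟩,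
    ⟨(u, θ), by rw [h]⟩, isPreconnected_range ?_⟩
  · simp [Phi_zero]
  · exact (continuous_const.mul continuous_Phi).mul continuous_const

lemma G_closed : IsClosed (G : Set (GL (Fin 3) ℝ)) := by
  have h : (G : Set (GL (Fin 3) ℝ)) = {g | 0 ≤ g.val.det} ∩
      {g | g.valᵀ * g.val = (g.valᵀ * g.val) 2 2 • (1 : Matrix (Fin 3) (Fin 3) ℝ)} := by
    ext g
    constructor
    · intro hg
      exact ⟨(det_pos ⟨g, hg⟩).le, sc_spec ⟨g, hg⟩⟩
    · rintro ⟨h1, h2⟩
      exact ⟨lt_of_le_of_ne h1 (Matrix.GeneralLinearGroup.det_ne_zero g).symm, _, h2⟩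
  have hc : Continuous fun g : GL (Fin 3) ℝ => g.val := Units.continuous_val
  rw [h]
  exact (isClosed_le continuous_const hc.matrix_det).inter (isClosed_eq (by fun_prop) (by fun_prop))

/-- The transpose of an element of G. -/
noncomputable def transp (g : G) : G :=
  mk g.val.valᵀ (by rw [det_transpose]; exact det_pos g) (sc g)
    (by rw [transpose_transpose, sc_spec'])

lemma transp_stab (x : X) (h : G) (hh : h • x = x) : transp h • x = x := by
  have h1 : sc h = 1 := by
    have h2 := N_smul h x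
    rw [hh] at h2
    exact mul_right_cancel₀ (N_pos x).ne' (by rw [← h2, one_mul])
  have h3 : h.val.val *ᵥ x.val = x.val := congrArg Subtype.val hh
  apply Subtype.ext
  rw [smul_val, transp, mk_val]
  conv_lhs => rw [← h3, mulVec_mulVec, sc_spec, h1, one_smul, one_mulVec]

/-- The generator of the discontinuous group, the scalar e. -/
noncomputable def z : G := Phi 1 0

lemma sc_z : 1 < sc z := by
  rw [z, sc_Phi]
  exact one_lt_pow₀ (Real.one_lt_exp_iff.2 one_pos) two_ne_zero

/-- The generator as an element of the group it generates. -/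
noncomputable def z' : Subgroup.zpowers z := ⟨z, Subgroup.mem_zpowers z⟩

lemma range_eq (φ : Subgroup.zpowers z →* G) : φ.range = Subgroup.zpowers (φ z') := by
  ext g
  constructor
  · rintro ⟨⟨_, m, rfl⟩, rfl⟩
    exact ⟨m, (map_zpow φ z' m).symm⟩
  · rintro ⟨m, rfl⟩
    exact ⟨z' ^ m, map_zpow φ z' m⟩

lemma eventually_sc : ∀ᶠ φ in near (Subgroup.zpowers z).subtype, 1 < sc (φ z') := by
  have hc : Continuous fun ψ : Subgroup.zpowers z → G => sc (ψ z') :=
    continuous_sc.comp (continuous_apply z')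
  have h : ∀ᶠ ψ in 𝓝 ((Subgroup.zpowers z).subtype : Subgroup.zpowers z → G), 1 < sc (ψ z') :=
    (isOpen_lt continuous_const hc).mem_nhds sc_z
  exact h.comap _

lemma discrete_of_discontinuous (L : Subgroup G) (h : Discontinuous L) : DiscreteTopology L := by
  have : LocallyCompactSpace X := isOpen_ne_zero.locallyCompactSpace
  obtain ⟨K, hK, hK'⟩ := exists_compact_mem_nhds e3
  have h1 := h.1.finite_disjoint_inter_image (isCompact_singleton (x := e3)) hK
  have hc : Continuous fun γ : L => (γ : G) • e3 := by fun_prop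
  have h2 : (fun γ : L => (γ : G) • e3) ⁻¹' K ∈ 𝓝 (1 : L) :=
    hc.continuousAt.preimage_mem_nhds (by simpa using hK')
  have h3 : ((fun γ : L => (γ : G) • e3) ⁻¹' K).Finite :=
    h1.subset fun γ hγ => ⟨_, ⟨e3, rfl, rfl⟩, hγ⟩
  exact discreteTopology_of_isOpen_singleton_one (isOpen_singleton_of_finite_mem_nhds 1 h2 h3)

/-- The deformation. -/
noncomputable def deform (s : ℝ) : G →* G where
  toFun g := Phi (s * Real.log (sc g)) 0 * g
  map_one' := by simp [sc_one, Phi_zero]
  map_mul' g h := by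
    rw [sc_mul, Real.log_mul (sc_pos g).ne' (sc_pos h).ne', mul_add]
    have := Phi_add (s * Real.log (sc g)) 0 (s * Real.log (sc h)) 0
    rw [add_zero] at this
    rw [this, mul_assoc, mul_assoc, ← mul_assoc g, Phi_central, mul_assoc]

lemma deform_apply (s : ℝ) (g : G) : deform s g = Phi (s * Real.log (sc g)) 0 * g := rfl

lemma exists_deformation : Deforms (Subgroup.zpowers z).subtype := by
  refine ⟨fun s => (deform s).comp (Subgroup.zpowers z).subtype, fun γ => ?_, ?_, 1, ?_⟩
  · simp only [MonoidHom.comp_apply, deform_apply]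
    exact (continuous_Phi.comp (f := fun s : unitInterval =>
      ((s : ℝ) * Real.log (sc ((Subgroup.zpowers z).subtype γ)), (0 : ℝ))) (by fun_prop)).mul
      continuous_const
  · ext γ
    simp [deform_apply, Phi_zero]
  · rintro ⟨g, hg⟩
    have h1 := congrArg sc (hg z')
    simp only [MonoidHom.comp_apply, deform_apply, sc_mul, sc_inv, sc_Phi] at h1
    have h2 : sc ((Subgroup.zpowers z).subtype z') = sc z := rfl
    have h4 := sc_pos g
    have h5 := sc_z
    rw [h2, Set.Icc.coe_one, one_mul, Real.exp_log (sc_pos z)] at h1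
    field_simp at h1
    nlinarith

lemma continuous_smooth (f : Smooth) : Continuous f.val := by
  have h : ContinuousOn (ext f.val) {x | x ≠ 0} := ContDiffOn.continuousOn f.property
  have h2 := h.comp_continuous continuous_subtype_val (fun x : X => x.property)
  convert h2 using 1
  funext x
  exact (ext_val _ x).symm

instance (g : G) : Countable (Subgroup.zpowers g) :=
  (Set.countable_range (fun m : ℤ => g ^ m)).to_subtype

instance (L : Subgroup G) : MeasurableConstSMul L X :=
  ⟨fun γ => (continuous_const_smul (γ : G)).measurable⟩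

lemma invariant_zpowers {α : Type*} (g : G) (F : X → α) (h : ∀ x, F (g • x) = F x) :
    ∀ γ ∈ Subgroup.zpowers g, ∀ x, F (γ • x) = F x := by
  let S : Subgroup G :=
    { carrier := {γ | ∀ x, F (γ • x) = F x}
      one_mem' := fun x => by rw [one_smul]
      mul_mem' := fun {a b} ha hb x => by rw [mul_smul, ha, hb]
      inv_mem' := fun {a} ha x => by rw [← ha, smul_inv_smul] }
  exact fun γ hγ => (Subgroup.zpowers_le_of_mem (H := S) h) hγ

lemma hasEigen (g : G) (hg : 1 < sc g) (n : ℕ) :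
    HasEigen Subtype.val (Subgroup.zpowers g) (fun D : InvOp => D.val) (lam n) := by
  obtain ⟨f, hf0, hf1, hf2⟩ := exists_eigen g n
  have hc := continuous_smooth f
  have hinv := invariant_zpowers g f.val hf1
  have hsub : shell (sc g) ⊆ {x : X | 1 ≤ N x ∧ N x ≤ sc g} := fun x hx => ⟨hx.1, hx.2.le⟩
  refine ⟨f, shell (sc g), fundamental g hg, hinv, ?_, ?_, hf2⟩
  · have : IsFiniteMeasure (mu.restrict (shell (sc g))) :=
      isFiniteMeasure_restrict.2 ((measure_mono hsub).trans_lt
        (isCompact_shell _).measure_lt_top).ne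
    obtain ⟨B, hB⟩ := (isCompact_shell (sc g)).exists_bound_of_continuousOn hc.continuousOn
    refine MemLp.of_bound hc.aestronglyMeasurable B ?_
    filter_upwards [ae_restrict_mem (measurableSet_shell _)] with x hx
    exact hB x (hsub hx)
  · intro h
    have hU : IsOpen {x : X | f.val x ≠ 0} := isOpen_ne_fun hc continuous_const
    have h1 : mu ({x : X | f.val x ≠ 0} ∩ shell (sc g)) = 0 := by
      rw [← Measure.restrict_apply hU.measurableSet]
      exact h
    have h2 := (fundamental g hg).measure_zero_of_invariant {x : X | f.val x ≠ 0} (fun γ => by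
      ext x
      rw [mem_smul_set_iff_inv_smul_mem, mem_ofPred_eq, mem_ofPred_eq, sub_smul_eq,
        hinv _ (γ⁻¹).property]) h1
    apply hU.measure_ne_zero mu _ h2
    by_contra h3
    apply hf0
    refine Smooth.ext' fun x => ?_
    by_contra h4
    exact h3 ⟨x, h4⟩

lemma infinite_stable :
    InfStable (Subtype.val : Smooth → X → ℂ) (Subgroup.zpowers z) := by
  unfold InfStable
  rw [invDiffOp_eq]
  apply Set.infinite_of_injective_forall_mem lam_injective
  intro n
  filter_upwards [eventually_sc] with φ hφ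
  rw [range_eq]
  exact hasEigen _ hφ n

lemma ae_zero_of_invariant (F : X → ℂ) (hF : MemLp F 2 mu)
    (h : ∀ᵐ x ∂mu, ‖F (z⁻¹ • x)‖ₑ = ‖F x‖ₑ) : F =ᵐ[mu] 0 := by
  let S : Subgroup G :=
    { carrier := {γ | ∀ᵐ x ∂mu, ‖F (γ • x)‖ₑ = ‖F x‖ₑ}
      one_mem' := by
        rw [mem_ofPred_eq]
        exact Filter.Eventually.of_forall fun x => by rw [one_smul]
      mul_mem' := fun {a b} ha hb => by
        rw [mem_ofPred_eq] at ha hb ⊢
        have h1 := (measurePreserving_smul b mu).quasiMeasurePreserving.ae ha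
        filter_upwards [h1, hb] with x h2 h3
        rw [mul_smul, h2, h3]
      inv_mem' := fun {a} ha => by
        rw [mem_ofPred_eq] at ha ⊢
        have h1 := (measurePreserving_smul a⁻¹ mu).quasiMeasurePreserving.ae ha
        filter_upwards [h1] with x h2
        rw [← h2, smul_inv_smul] }
  have hz : z ∈ S := by
    have : z⁻¹ ∈ S := h
    simpa using S.inv_mem this
  have hS : Subgroup.zpowers z ≤ S := Subgroup.zpowers_le_of_mem hz
  have hinf : Infinite (Subgroup.zpowers z) := by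
    refine Infinite.of_injective
      (fun m : ℤ => (⟨z ^ m, Subgroup.zpow_mem_zpowers z m⟩ : Subgroup.zpowers z)) ?_
    intro a b hab
    have h1 : sc (z ^ a) = sc (z ^ b) := congrArg (fun γ : Subgroup.zpowers z => sc γ) hab
    rw [sc_zpow, sc_zpow] at h1
    exact zpow_right_injective₀ (sc_pos z) sc_z.ne' h1
  have h1 := (fundamental z sc_z).lintegral_eq_tsum' (fun x => ‖F x‖ₑ ^ (2 : ℝ))
  have h2 : ∀ γ : Subgroup.zpowers z, ∫⁻ x in shell (sc z), ‖F (γ⁻¹ • x)‖ₑ ^ (2 : ℝ) ∂mu =
      ∫⁻ x in shell (sc z), ‖F x‖ₑ ^ (2 : ℝ) ∂mu := by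
    intro γ
    apply lintegral_congr_ae
    have h3 : ∀ᵐ x ∂mu, ‖F ((γ⁻¹ : Subgroup.zpowers z) • x)‖ₑ = ‖F x‖ₑ := hS (γ⁻¹).property
    filter_upwards [ae_restrict_of_ae h3] with x hx
    rw [hx]
  simp only [h2] at h1
  have h4 : ∫⁻ x, ‖F x‖ₑ ^ (2 : ℝ) ∂mu < ⊤ := by
    have := lintegral_rpow_enorm_lt_top_of_eLpNorm_lt_top (by norm_num) (by norm_num) hF.2
    simpa using this
  have h5 : ∫⁻ x in shell (sc z), ‖F x‖ₑ ^ (2 : ℝ) ∂mu = 0 := by
    by_contra h6
    rw [ENNReal.tsum_const_eq_top_of_ne_zero h6] at h1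
    exact h4.ne h1
  rw [h5, tsum_zero, lintegral_eq_zero_iff' (hF.1.enorm.pow_const _)] at h1
  filter_upwards [h1] with x hx
  simpa using hx

theorem disc_empty (V : Type u) [NormedAddCommGroup V] [InnerProductSpace ℂ V] [CompleteSpace V]
    [Nontrivial V] (π : G →* (V ≃ₗᵢ[ℂ] V))
    (hirr : ∀ W : Submodule ℂ V, IsClosed (W : Set V) → (∀ g, ∀ v ∈ W, π g v ∈ W) → W = ⊥ ∨ W = ⊤)
    (T : V →L[ℂ] Lp ℂ 2 mu) (hT : ∀ g v, T (π g v) =ᵐ[mu] fun x => T v (g⁻¹ • x)) : T = 0 := by
  obtain ⟨c, hc, hcv⟩ := schur_central π hirr z (Phi_central 1)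
  refine ContinuousLinearMap.ext fun v => ?_
  have h1 := hT z v
  rw [hcv, map_smul] at h1
  have h2 := ae_zero_of_invariant (T v) (Lp.memLp _) (by
    filter_upwards [h1, Lp.coeFn_smul c (T v)] with x h3 h4
    rw [← h3, h4, Pi.smul_apply, enorm_smul, ← ofReal_norm c, hc]
    simp)
  exact Lp.eq_zero_iff_ae_eq_zero.2 h2

end Pool.Agent.Lib.MP_99bfa4_al
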