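import Pool.Agent.Lib.MP_99bfa4_al.Gen

/-! Smooth functions on the closed submanifold SL(2, R) of the space of 2 by 2 real matrices. -/

open scoped ContDiff

namespace Pool.Agent.Lib.MP_99bfa4_al.SL2

/-- The algebra of smooth complex valued functions on SL(2, R): restrictions of smooth functions
of the four matrix entries. -/
noncomputable def Smooth : Subalgebra ℂ (Matrix.SpecialLinearGroup (Fin 2) ℝ → ℂ) where
  carrier := {f | ∃ F : (Fin 2 → Fin 2 → ℝ) → ℂ, ContDiff ℝ ∞ F ∧
    ∀ g, f g = F fun i j => g.val i j}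
  mul_mem' := by
    rintro f f' ⟨F, hF, h⟩ ⟨F', hF', h'⟩
    exact ⟨fun x => F x * F' x, hF.mul hF', fun g => by rw [Pi.mul_apply, h, h']⟩
  add_mem' := by
    rintro f f' ⟨F, hF, h⟩ ⟨F', hF', h'⟩
    exact ⟨fun x => F x + F' x, hF.add hF', fun g => by rw [Pi.add_apply, h, h']⟩
  algebraMap_mem' := fun c => ⟨fun _ => c, contDiff_const, fun _ => rfl⟩

end Pool.Agent.Lib.MP_99bfa4_al.SL2
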