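import Pool.Agent.Lib.MP_99bfa4_al.SL2Hol

/-! The closed span of the left translates of the lowest weight matrix coefficient is an
irreducible subrepresentation of the regular representation of SL(2, R). -/

open Matrix Set MeasureTheory Complex
open scoped MatrixGroups Topology ComplexConjugate ENNReal InnerProductSpace

namespace Pool.Agent.Lib.MP_99bfa4_al.SL2

lemma locallyCompact : LocallyCompactSpace SL(2, ℝ) :=
  haveI : LocallyCompactSpace (Matrix (Fin 2) (Fin 2) ℝ) :=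
    inferInstanceAs (LocallyCompactSpace (Fin 2 → Fin 2 → ℝ))
  Matrix.SpecialLinearGroup.isClosedEmbedding_val.locallyCompactSpace

lemma secondCountable : SecondCountableTopology SL(2, ℝ) :=
  haveI : SecondCountableTopology (Matrix (Fin 2) (Fin 2) ℝ) :=
    inferInstanceAs (SecondCountableTopology (Fin 2 → Fin 2 → ℝ))
  Matrix.SpecialLinearGroup.isClosedEmbedding_val.isEmbedding.secondCountableTopology

/-- A cyclic vector that spans its isotypic part generates an irreducible representation. -/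
lemma irred_of_iso {G H ι 𝕜 : Type*} [RCLike 𝕜] [Group G] [NormedAddCommGroup H]
    [InnerProductSpace 𝕜 H] [CompleteSpace H] (π : G →* (H ≃ₗᵢ[𝕜] H)) (ψ : H) (k : ι → G)
    (χ : ι → 𝕜) (hψ : ∀ i, π (k i) ψ = χ i • ψ)
    (hcyc : ∀ S : Submodule 𝕜 H, IsClosed (S : Set H) → (∀ g, π g ψ ∈ S) → S = ⊤)
    (hone : ∀ z, (∀ i, π (k i) z = χ i • z) → ⟪z, ψ⟫_𝕜 = 0 → z = 0)
    (W : Submodule 𝕜 H) (hW : IsClosed (W : Set H)) (hinv : ∀ g, ∀ v ∈ W, π g v ∈ W) :
    W = ⊥ ∨ W = ⊤ := by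
  have : CompleteSpace W := hW.completeSpace_coe
  have hinv' : ∀ g, ∀ v ∈ Wᗮ, π g v ∈ Wᗮ := fun g v hv u hu => by
    have h1 := hv _ (hinv g⁻¹ u hu)
    rw [← (π g).inner_map_map] at h1
    have h2 : π g (π g⁻¹ u) = u := by
      change (π g * π g⁻¹) u = u
      rw [← map_mul, mul_inv_cancel, map_one]
      rfl
    rwa [h2] at h1
  obtain ⟨w, hw, w', hw', e⟩ := W.exists_add_mem_mem_orthogonal ψ
  have hiso : ∀ i, π (k i) w = χ i • w ∧ π (k i) w' = χ i • w' := fun i => by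
    have h1 := hψ i
    rw [e, map_add, smul_add] at h1
    have h2 : π (k i) w - χ i • w = χ i • w' - π (k i) w' := by
      rw [sub_eq_sub_iff_add_eq_add, h1, add_comm]
    have h3 : π (k i) w - χ i • w ∈ W ⊓ Wᗮ :=
      ⟨W.sub_mem (hinv _ _ hw) (W.smul_mem _ hw),
        h2 ▸ Wᗮ.sub_mem (Wᗮ.smul_mem _ hw') (hinv' _ _ hw')⟩
    rw [Submodule.inf_orthogonal_eq_bot, Submodule.mem_bot] at h3
    exact ⟨sub_eq_zero.1 h3, (sub_eq_zero.1 (h2.symm.trans h3)).symm⟩
  have hww' : ⟪w, w'⟫_𝕜 = 0 := hw' w hw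
  have hw'w : ⟪w', w⟫_𝕜 = 0 := inner_eq_zero_symm.1 hww'
  have hz : ⟪w', w'⟫_𝕜 • w - ⟪w, w⟫_𝕜 • w' = 0 := by
    refine hone _ (fun i => ?_) ?_
    · rw [map_sub, map_smul, map_smul, (hiso i).1, (hiso i).2, smul_sub, smul_comm,
        smul_comm ⟪w, w⟫_𝕜]
    · rw [e, inner_sub_left, inner_smul_left, inner_smul_left, inner_add_right, inner_add_right,
        hww', hw'w, inner_conj_symm, inner_conj_symm]
      ring
  have h5 : ⟪w', w'⟫_𝕜 * ⟪w, w⟫_𝕜 = 0 := by
    have := congrArg (fun u => ⟪w, u⟫_𝕜) hz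
    simp only [inner_sub_right, inner_smul_right, hww', inner_zero_right, mul_zero,
      sub_zero] at this
    exact this
  rcases mul_eq_zero.1 h5 with h | h
  · rw [inner_self_eq_zero] at h
    rw [h, add_zero] at e
    exact Or.inr (hcyc _ hW fun g => hinv g _ (e ▸ hw))
  · rw [inner_self_eq_zero] at h
    rw [h, zero_add] at e
    exact Or.inl ((Submodule.orthogonal_eq_top_iff W).1
      (hcyc _ W.isClosed_orthogonal fun g => hinv' g _ (e ▸ hw')))

attribute [local instance] locallyCompact secondCountable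

variable [MeasurableSpace SL(2, ℝ)] [BorelSpace SL(2, ℝ)] (μ : Measure SL(2, ℝ))
  [μ.IsHaarMeasure]

/-- The left regular representation. -/
noncomputable def rho (g : SL(2, ℝ)) : Lp ℂ 2 μ ≃ₗᵢ[ℂ] Lp ℂ 2 μ where
  toFun f := DomMulAct.mk g⁻¹ • f
  invFun f := DomMulAct.mk g • f
  map_add' := DomMulAct.smul_Lp_add _
  map_smul' c f := smul_comm _ c f
  left_inv f := by
    change DomMulAct.mk g • DomMulAct.mk g⁻¹ • f = f
    rw [← mul_smul, ← DomMulAct.mk_mul, inv_mul_cancel, DomMulAct.mk_one, one_smul]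
  right_inv f := by
    change DomMulAct.mk g⁻¹ • DomMulAct.mk g • f = f
    rw [← mul_smul, ← DomMulAct.mk_mul, mul_inv_cancel, DomMulAct.mk_one, one_smul]
  norm_map' := DomMulAct.norm_smul_Lp _

lemma rho_apply (g : SL(2, ℝ)) (f : Lp ℂ 2 μ) : rho μ g f = DomMulAct.mk g⁻¹ • f := rfl

lemma rho_ae (g : SL(2, ℝ)) (f : Lp ℂ 2 μ) : rho μ g f =ᵐ[μ] fun x => f (g⁻¹ * x) :=
  DomMulAct.smul_Lp_ae_eq _ f

lemma rho_mul (g h : SL(2, ℝ)) (f : Lp ℂ 2 μ) : rho μ (g * h) f = rho μ g (rho μ h f) := by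
  rw [rho_apply, rho_apply, rho_apply, _root_.mul_inv_rev, DomMulAct.mk_mul, mul_smul]

lemma rho_one (f : Lp ℂ 2 μ) : rho μ 1 f = f := by
  rw [rho_apply, inv_one, DomMulAct.mk_one, one_smul]

lemma continuous_rho (f : Lp ℂ 2 μ) : Continuous fun g => rho μ g f := by
  simp only [rho_apply]
  have : Fact ((2 : ℝ≥0∞) ≠ ∞) := ⟨ENNReal.ofNat_ne_top⟩
  exact (DomMulAct.continuous_mk.comp continuous_inv).smul continuous_const

/-- The matrix coefficient as an element of L^2. -/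
noncomputable def psiL : Lp ℂ 2 μ := (memLp_psi μ (le_refl 5)).toLp

lemma psiL_ae : psiL μ =ᵐ[μ] psi 5 := MemLp.coeFn_toLp _

lemma rho_psiL_ae (g : SL(2, ℝ)) : rho μ g (psiL μ) =ᵐ[μ] fun x => psi 5 (g⁻¹ * x) :=
  (rho_ae μ g _).trans
    ((measurePreserving_mul_left μ g⁻¹).quasiMeasurePreserving.ae_eq_comp (psiL_ae μ))

lemma psiL_ne_zero : psiL μ ≠ 0 := by
  intro h
  have h1 : psi 5 =ᵐ[μ] 0 := by
    refine (psiL_ae μ).symm.trans ?_
    rw [h]
    exact Lp.coeFn_zero ℂ 2 μ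
  obtain ⟨x, hx⟩ := h1.exists
  exact psi_ne_zero 5 x hx

/-- The vectors that transform under rotations like the matrix coefficient. -/
def Iso (v : Lp ℂ 2 μ) : Prop := ∀ θ : ℝ, rho μ (rot θ)⁻¹ v = (exp (θ * I) ^ 5)⁻¹ • v

lemma iso_psiL : Iso μ (psiL μ) := fun θ => by
  refine Lp.ext ((rho_psiL_ae μ _).trans ?_)
  filter_upwards [Lp.coeFn_smul (exp (θ * I) ^ 5)⁻¹ (psiL μ), psiL_ae μ] with x h1 h2
  rw [h1, Pi.smul_apply, h2, inv_inv, psi_rot_mul, smul_eq_mul]

lemma inner_ker {v : Lp ℂ 2 μ} (hv : Iso μ v) (g : SL(2, ℝ)) (φ : ℝ) :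
    ⟪v, rho μ g (psiL μ)⟫_ℂ = ∫ x, ker 5 g⁻¹ x (exp (φ * I)) * conj (v x) ∂μ := by
  set θ : ℝ := -φ / 2 with hθ
  have h1 : conj (exp (θ * I) ^ 5)⁻¹ * (exp (θ * I) ^ 5)⁻¹ = 1 := by
    rw [Complex.conj_mul', norm_inv, norm_pow, norm_exp_ofReal_mul_I]
    simp
  have h2 : (-2 * θ : ℝ) = φ := by rw [hθ]; ring
  rw [← (rho μ (rot θ)⁻¹).inner_map_map, hv θ, ← rho_mul, inner_smul_left, L2.inner_def,
    ← integral_const_mul]
  refine integral_congr_ae ?_
  filter_upwards [rho_psiL_ae μ ((rot θ)⁻¹ * g)] with x hx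
  rw [hx, _root_.mul_inv_rev, inv_inv, mul_assoc, psi_mul_rot_mul, h2, RCLike.inner_apply,
    ← mul_assoc, ← mul_assoc, h1, one_mul]

lemma inner_rho {v : Lp ℂ 2 μ} (hv : Iso μ v) (g : SL(2, ℝ)) :
    ⟪v, rho μ g (psiL μ)⟫_ℂ = 2 ^ 5 * psi 5 g⁻¹ * ⟪v, psiL μ⟫_ℂ := by
  have hint : Integrable (Function.uncurry fun (φ : ℝ) (x : SL(2, ℝ)) =>
      ker 5 g⁻¹ x (exp (φ * I)) * conj (v x))
      ((volume.restrict (uIoc (0 : ℝ) (2 * Real.pi))).prod μ) := by
    have hc : Continuous fun p : ℝ × SL(2, ℝ) => ker 5 g⁻¹ p.2 (exp (p.1 * I)) := by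
      have hA := continuous_cA
      have hB := continuous_cB
      exact Continuous.inv₀ (by fun_prop) fun p =>
        pow_ne_zero 5 (ker_base_ne _ _ (norm_exp_ofReal_mul_I p.1).le)
    have hv2 : MemLp (fun x => conj (v x)) 2 μ := (Lp.memLp v).star
    have hb : Integrable (fun x => ‖psi 5 x‖ * ‖conj (v x)‖) μ :=
      (memLp_psi μ (le_refl 5)).norm.integrable_mul hv2.norm
    have : IsFiniteMeasure (volume.restrict (uIoc (0 : ℝ) (2 * Real.pi))) :=
      ⟨by simp [uIoc]⟩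
    refine ((hb.const_mul (((‖cA g⁻¹‖ - ‖cB g⁻¹‖) / 2) ^ 5)⁻¹).comp_snd _).mono'
      (hc.aestronglyMeasurable.mul hv2.1.comp_snd) (Filter.Eventually.of_forall fun p => ?_)
    change ‖ker 5 g⁻¹ p.2 (exp (p.1 * I)) * conj (v p.2)‖ ≤ _
    rw [norm_mul, ← mul_assoc]
    exact mul_le_mul_of_nonneg_right (norm_ker_le 5 _ _ (norm_exp_ofReal_mul_I p.1).le)
      (norm_nonneg _)
  have h := intervalIntegral_integral_swap hint
  simp only [← inner_ker μ hv g, intervalIntegral.integral_mul_const, integral_ker] at h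
  rw [intervalIntegral.integral_const, sub_zero, Complex.real_smul] at h
  have h3 : ⟪v, psiL μ⟫_ℂ = ∫ x, psi 5 x * conj (v x) ∂μ := by
    rw [L2.inner_def]
    refine integral_congr_ae ?_
    filter_upwards [psiL_ae μ] with x hx
    rw [hx, RCLike.inner_apply]
  have h4 : ((2 * Real.pi : ℝ) : ℂ) ≠ 0 := ofReal_ne_zero.2 (by positivity)
  apply mul_left_cancel₀ h4
  rw [h, h3, ← integral_const_mul, ← integral_const_mul]
  refine integral_congr_ae (Filter.Eventually.of_forall fun x => ?_)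
  ring

/-- The closed span of the translates. -/
noncomputable def V : Submodule ℂ (Lp ℂ 2 μ) :=
  (Submodule.span ℂ (range fun g => rho μ g (psiL μ))).topologicalClosure

lemma V_closed : IsClosed (V μ : Set (Lp ℂ 2 μ)) := Submodule.isClosed_topologicalClosure _

lemma V_le {S : Submodule ℂ (Lp ℂ 2 μ)} (hS : IsClosed (S : Set (Lp ℂ 2 μ)))
    (h : ∀ g, rho μ g (psiL μ) ∈ S) : V μ ≤ S :=
  Submodule.topologicalClosure_minimal _ (Submodule.span_le.2 (range_subset_iff.2 h)) hS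

lemma rho_psiL_mem (g : SL(2, ℝ)) : rho μ g (psiL μ) ∈ V μ :=
  Submodule.le_topologicalClosure _ (Submodule.subset_span ⟨g, rfl⟩)

omit [MeasurableSpace SL(2, ℝ)] [BorelSpace SL(2, ℝ)] in
lemma map_mem_of_le {H : Type*} [NormedAddCommGroup H] [NormedSpace ℂ H] {ι : Type*}
    (a : ι → H) (T : H ≃ₗᵢ[ℂ] H) (h : ∀ i, ∃ j, T (a i) = a j) {v : H}
    (hv : v ∈ (Submodule.span ℂ (range a)).topologicalClosure) :
    T v ∈ (Submodule.span ℂ (range a)).topologicalClosure := by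
  refine Submodule.topologicalClosure_minimal _
    (t := (Submodule.span ℂ (range a)).topologicalClosure.comap T.toLinearEquiv.toLinearMap)
    (Submodule.span_le.2 (range_subset_iff.2 fun i => ?_))
    ((Submodule.isClosed_topologicalClosure _).preimage T.continuous) hv
  obtain ⟨j, hj⟩ := h i
  exact Submodule.le_topologicalClosure _ (Submodule.subset_span ⟨j, hj.symm⟩)

lemma rho_mem (g : SL(2, ℝ)) {v : Lp ℂ 2 μ} (hv : v ∈ V μ) : rho μ g v ∈ V μ :=
  map_mem_of_le _ (rho μ g) (fun h => ⟨g * h, (rho_mul μ g h _).symm⟩) hv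

/-- The representation on the closed span. -/
noncomputable def piV : SL(2, ℝ) →* (V μ ≃ₗᵢ[ℂ] V μ) where
  toFun g :=
    { toFun := fun v => ⟨rho μ g v, rho_mem μ g v.property⟩
      invFun := fun v => ⟨rho μ g⁻¹ v, rho_mem μ g⁻¹ v.property⟩
      map_add' := fun v w => Subtype.ext (map_add (rho μ g) v.val w.val)
      map_smul' := fun c v => Subtype.ext (map_smul (rho μ g) c v.val)
      left_inv := fun v => Subtype.ext (by
        change rho μ g⁻¹ (rho μ g v) = v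
        rw [← rho_mul, inv_mul_cancel, rho_one])
      right_inv := fun v => Subtype.ext (by
        change rho μ g (rho μ g⁻¹ v) = v
        rw [← rho_mul, mul_inv_cancel, rho_one])
      norm_map' := fun v => (rho μ g).norm_map v.val }
  map_one' := LinearIsometryEquiv.ext fun v => Subtype.ext (rho_one μ v)
  map_mul' g h := LinearIsometryEquiv.ext fun v => Subtype.ext (rho_mul μ g h v)

lemma piV_val (g : SL(2, ℝ)) (v : V μ) : (piV μ g v).val = rho μ g v := rfl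

/-- The generating vector. -/
noncomputable def psiV : V μ := ⟨psiL μ, by simpa [rho_one] using rho_psiL_mem μ 1⟩

lemma eq_top_of_mem {S : Submodule ℂ (V μ)} (hS : IsClosed (S : Set (V μ)))
    (h : ∀ g, piV μ g (psiV μ) ∈ S) : S = ⊤ := by
  refine eq_top_iff.2 fun v _ => ?_
  have h1 : IsClosed (S.map (V μ).subtype : Set (Lp ℂ 2 μ)) :=
    (V_closed μ).isClosedEmbedding_subtypeVal.isClosedMap _ hS
  obtain ⟨w, hw, e⟩ := V_le μ h1 (fun g => ⟨_, h g, rfl⟩) v.property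
  rwa [← Subtype.ext e]

lemma eq_zero_of_iso (z : V μ) (hz : Iso μ z.val) (h : ⟪z.val, psiL μ⟫_ℂ = 0) : z = 0 := by
  have h1 : V μ ≤ (ℂ ∙ z.val)ᗮ := V_le μ (Submodule.isClosed_orthogonal _) fun g => by
    rw [Submodule.mem_orthogonal_singleton_iff_inner_right, inner_rho μ hz g, h, mul_zero]
  have h4 := h1 z.property
  rw [Submodule.mem_orthogonal_singleton_iff_inner_right, inner_self_eq_zero] at h4
  exact Subtype.ext h4

theorem irred : Gen.Irred (piV μ) := by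
  refine ⟨fun v => continuous_induced_rng.2 (continuous_rho μ v.val),
    ⟨psiV μ, 0, fun h => psiL_ne_zero μ (congrArg Subtype.val h)⟩, ?_⟩
  have : CompleteSpace (V μ) := (V_closed μ).completeSpace_coe
  exact irred_of_iso (piV μ) (psiV μ) (fun θ : ℝ => (rot θ)⁻¹) (fun θ => (exp (θ * I) ^ 5)⁻¹)
    (fun θ => Subtype.ext (iso_psiL μ θ)) (fun S => eq_top_of_mem μ)
    (fun z hz h => eq_zero_of_iso μ z (fun θ => congrArg Subtype.val (hz θ)) h)

theorem discNonempty : Gen.DiscNonempty SL(2, ℝ) μ := by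
  refine ⟨V μ, inferInstance, inferInstance, (V_closed μ).completeSpace_coe, piV μ, irred μ,
    (V μ).subtypeL, fun h => ?_, fun g v => rho_ae μ g v.val⟩
  exact psiL_ne_zero μ (congrArg (fun T : V μ →L[ℂ] Lp ℂ 2 μ => T (psiV μ)) h)

end Pool.Agent.Lib.MP_99bfa4_al.SL2
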