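import Pool.Agent.Lib.MP_99bfa4_al.SL2Defs

/-! A cyclic hyperbolic subgroup of SL(2, R) is an admissible discontinuous group for
SL(2, R) acting on itself. -/

open Matrix Set
open scoped MatrixGroups Topology

namespace Pool.Agent.Lib.MP_99bfa4_al.SL2

/-- The trace. -/
def tr (g : SL(2, ℝ)) : ℝ := g.val 0 0 + g.val 1 1

lemma det_eq (g : SL(2, ℝ)) : g.val 0 0 * g.val 1 1 - g.val 0 1 * g.val 1 0 = 1 := by
  have := g.property
  rwa [det_fin_two] at this

lemma mul_val (g h : SL(2, ℝ)) (i j : Fin 2) :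
    (g * h).val i j = g.val i 0 * h.val 0 j + g.val i 1 * h.val 1 j := by
  simp [Matrix.mul_apply, Fin.sum_univ_two]

lemma inv_val (g : SL(2, ℝ)) :
    (g⁻¹).val = !![g.val 1 1, -g.val 0 1; -g.val 1 0, g.val 0 0] := by
  rw [Matrix.SpecialLinearGroup.coe_inv, adjugate_fin_two]

lemma tr_inv (g : SL(2, ℝ)) : tr g⁻¹ = tr g := by
  simp only [tr, inv_val]
  simp [add_comm]

lemma tr_one : tr 1 = 2 := by
  simp [tr]; norm_num

lemma tr_rec (g h : SL(2, ℝ)) : tr (h * g * g) = tr g * tr (h * g) - tr h := by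
  simp only [tr, mul_val]
  linear_combination (-(h.val 0 0 + h.val 1 1)) * det_eq g

lemma tr_conj (k g : SL(2, ℝ)) : tr (k * g * k⁻¹) = tr g := by
  simp only [tr, mul_val, inv_val]
  simp
  linear_combination (g.val 0 0 + g.val 1 1) * det_eq k

lemma continuous_entry (i j : Fin 2) : Continuous fun g : SL(2, ℝ) => g.val i j :=
  (continuous_apply_apply i j).comp continuous_subtype_val

lemma continuous_tr : Continuous tr := (continuous_entry 0 0).add (continuous_entry 1 1)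

lemma tr_pow (g : SL(2, ℝ)) (hg : 2 < tr g) (n : ℕ) :
    2 + n * (tr g - 2) ≤ tr (g ^ n) ∧ tr (g ^ n) + (tr g - 2) ≤ tr (g ^ (n + 1)) := by
  induction n with
  | zero => simp [tr_one]
  | succ n ih =>
    obtain ⟨h1, h2⟩ := ih
    have h3 : 2 + ((n + 1 : ℕ) : ℝ) * (tr g - 2) ≤ tr (g ^ (n + 1)) := by
      push_cast; linarith
    refine ⟨h3, ?_⟩
    have h4 := tr_rec g (g ^ n)
    rw [← pow_succ, ← pow_succ] at h4
    have h5 : (0 : ℝ) ≤ ((n + 1 : ℕ) : ℝ) * (tr g - 2) := by positivity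
    have h6 : 0 ≤ (tr g - 2) * tr (g ^ (n + 1)) := mul_nonneg (by linarith) (by linarith)
    nlinarith

lemma tr_zpow (g : SL(2, ℝ)) (hg : 2 < tr g) (m : ℤ) :
    2 + (m.natAbs : ℝ) * (tr g - 2) ≤ tr (g ^ m) := by
  obtain ⟨n, rfl | rfl⟩ := Int.eq_nat_or_neg m
  · simpa using (tr_pow g hg n).1
  · rw [_root_.zpow_neg, tr_inv]
    simpa using (tr_pow g hg n).1

lemma finite_tr (g : SL(2, ℝ)) (hg : 2 < tr g) (M : ℝ) :
    {γ : Subgroup.zpowers g | tr γ.val ≤ M}.Finite := by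
  obtain ⟨N, hN⟩ := exists_nat_ge (M / (tr g - 2))
  have hpos : 0 < tr g - 2 := by linarith
  refine ((Set.finite_Icc (-(N : ℤ)) N).image
    fun m => (⟨g ^ m, m, rfl⟩ : Subgroup.zpowers g)).subset ?_
  rintro ⟨_, m, rfl⟩ h
  refine ⟨m, ?_, rfl⟩
  have h1 := tr_zpow g hg m
  have h2 : tr (g ^ m) ≤ M := h
  have h3 : (m.natAbs : ℝ) ≤ N := by
    refine le_trans ?_ hN
    rw [le_div_iff₀ hpos]
    linarith
  have h4 : m.natAbs ≤ N := by exact_mod_cast h3
  constructor <;> omega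

lemma discontinuous (g : SL(2, ℝ)) (hg : 2 < tr g) :
    Gen.Discontinuous SL(2, ℝ) (Subgroup.zpowers g) := by
  refine ⟨⟨fun {K L} hK hL => ?_⟩, fun γ _ y h => mul_right_cancel (h.trans (one_mul y).symm)⟩
  have hc : IsCompact ((fun p : SL(2, ℝ) × SL(2, ℝ) => tr (p.2 * p.1⁻¹)) '' (K ×ˢ L)) :=
    (hK.prod hL).image (continuous_tr.comp (continuous_snd.mul continuous_fst.inv))
  obtain ⟨M, hM⟩ := hc.bddAbove
  refine (finite_tr g hg M).subset ?_
  rintro γ ⟨_, ⟨x, hx, rfl⟩, hy⟩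
  refine hM ⟨(x, γ.val * x), ⟨hx, hy⟩, ?_⟩
  simp

lemma discrete (g : SL(2, ℝ)) (hg : 2 < tr g) : DiscreteTopology (Subgroup.zpowers g) := by
  have h2 : {γ : Subgroup.zpowers g | tr γ.val ≤ 3} ∈ 𝓝 (1 : Subgroup.zpowers g) := by
    refine Filter.mem_of_superset ((isOpen_lt (continuous_tr.comp continuous_subtype_val)
      (continuous_const (y := (3 : ℝ)))).mem_nhds ?_) fun γ hγ => le_of_lt (b := (3 : ℝ)) hγ
    change tr 1 < 3
    rw [tr_one]; norm_num
  exact discreteTopology_of_isOpen_singleton_one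
    (isOpen_singleton_of_finite_mem_nhds 1 h2 (finite_tr g hg 3))

/-- The diagonal one-parameter subgroup. -/
noncomputable def dg (u : ℝ) : SL(2, ℝ) :=
  ⟨!![Real.exp u, 0; 0, Real.exp (-u)], by simp [det_fin_two, ← Real.exp_add]⟩

lemma dg_val (u : ℝ) : (dg u).val = !![Real.exp u, 0; 0, Real.exp (-u)] := rfl

lemma dg_add (u v : ℝ) : dg (u + v) = dg u * dg v := by
  ext i j
  rw [mul_val]
  fin_cases i <;> fin_cases j <;> simp [dg_val, ← Real.exp_add, add_comm]

lemma dg_zero : dg 0 = 1 := by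
  ext i j
  fin_cases i <;> fin_cases j <;> simp [dg_val]

lemma dg_zpow (m : ℤ) : dg 1 ^ m = dg m := by
  induction m using Int.induction_on with
  | zero => simp [dg_zero]
  | succ n ih => rw [_root_.zpow_add_one, ih, ← dg_add]; push_cast; rfl
  | pred n ih =>
    rw [_root_.zpow_sub_one, ih, mul_inv_eq_iff_eq_mul, ← dg_add]
    push_cast
    congr 1
    ring

lemma continuous_dg : Continuous dg := by
  refine continuous_induced_rng.2 ?_
  change Continuous fun u => (dg u).val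
  simp only [dg_val]
  refine continuous_matrix fun i j => ?_
  fin_cases i <;> fin_cases j <;> simp <;> fun_prop

lemma tr_dg (u : ℝ) : tr (dg u) = Real.exp u + Real.exp (-u) := by
  simp [tr, dg_val]

lemma tr_z : 2 < tr (dg 1) := by
  rw [tr_dg]
  have h1 := Real.add_one_lt_exp (x := 1) one_ne_zero
  have h2 := Real.exp_pos (-1)
  linarith

/-- The generator as an element of the group it generates. -/
noncomputable def z' : Subgroup.zpowers (dg 1) := ⟨dg 1, Subgroup.mem_zpowers _⟩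

lemma range_eq (φ : Subgroup.zpowers (dg 1) →* SL(2, ℝ)) :
    φ.range = Subgroup.zpowers (φ z') := by
  ext g
  constructor
  · rintro ⟨⟨_, m, rfl⟩, rfl⟩
    exact ⟨m, (map_zpow φ z' m).symm⟩
  · rintro ⟨m, rfl⟩
    exact ⟨z' ^ m, map_zpow φ z' m⟩

lemma eventually_tr : ∀ᶠ φ in Gen.near (Subgroup.zpowers (dg 1)).subtype, 2 < tr (φ z') := by
  have hc : Continuous fun ψ : Subgroup.zpowers (dg 1) → SL(2, ℝ) => tr (ψ z') :=
    continuous_tr.comp (continuous_apply z')
  have h : ∀ᶠ ψ in 𝓝 ((Subgroup.zpowers (dg 1)).subtype : Subgroup.zpowers (dg 1) → SL(2, ℝ)),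
      2 < tr (ψ z') := (isOpen_lt continuous_const hc).mem_nhds tr_z
  exact h.comap _

lemma log_zpow (m : ℤ) : Real.log ((dg 1 ^ m).val 0 0) = m := by
  rw [dg_zpow, dg_val]
  simp

/-- The deformation. -/
noncomputable def deform (s : ℝ) : Subgroup.zpowers (dg 1) →* SL(2, ℝ) where
  toFun γ := dg ((1 + s) * Real.log (γ.val.val 0 0))
  map_one' := by simp [dg_zero]
  map_mul' := by
    rintro ⟨_, m, rfl⟩ ⟨_, n, rfl⟩
    have h : (dg 1 ^ m * dg 1 ^ n) = dg 1 ^ (m + n) := (_root_.zpow_add _ _ _).symm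
    change dg ((1 + s) * Real.log ((dg 1 ^ m * dg 1 ^ n).val 0 0)) =
      dg ((1 + s) * Real.log ((dg 1 ^ m).val 0 0)) * dg ((1 + s) * Real.log ((dg 1 ^ n).val 0 0))
    rw [h, log_zpow, log_zpow, log_zpow, ← dg_add]
    push_cast
    rw [mul_add]

lemma deform_apply (s : ℝ) (γ : Subgroup.zpowers (dg 1)) :
    deform s γ = dg ((1 + s) * Real.log (γ.val.val 0 0)) := rfl

lemma deforms : Gen.Deforms (Subgroup.zpowers (dg 1)).subtype := by
  refine ⟨fun s => deform s, fun γ => ?_, ?_, 1, ?_⟩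
  · simp only [deform_apply]
    exact continuous_dg.comp (by fun_prop)
  · refine MonoidHom.ext ?_
    rintro ⟨_, m, rfl⟩
    change dg ((1 + ((0 : unitInterval) : ℝ)) * Real.log ((dg 1 ^ m).val 0 0)) = dg 1 ^ m
    rw [log_zpow, dg_zpow]
    simp
  · rintro ⟨g, hg⟩
    have h1 := congrArg tr (hg z')
    rw [tr_conj, deform_apply] at h1
    have h2 : Real.log (z'.val.val 0 0) = 1 := by
      have := log_zpow 1
      rw [_root_.zpow_one, Int.cast_one] at this
      exact this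
    have h3 : (Subgroup.zpowers (dg 1)).subtype z' = dg 1 := rfl
    rw [h2, h3, tr_dg, tr_dg, Set.Icc.coe_one] at h1
    have h4 : Real.exp ((1 + 1) * 1) = Real.exp 1 * Real.exp 1 := by
      rw [← Real.exp_add]; norm_num
    have h5 := Real.add_one_lt_exp (x := 1) one_ne_zero
    have h6 := Real.exp_pos (-((1 + 1) * 1))
    have h7 : Real.exp (-1) < 1 := Real.exp_lt_one_iff.2 (by norm_num)
    rw [h4] at h1
    nlinarith

theorem admissible : Gen.Admissible SL(2, ℝ) (Subgroup.zpowers (dg 1)) := by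
  refine ⟨⟨{dg 1}, by simp [Subgroup.zpowers_eq_closure]⟩, discrete _ tr_z,
    discontinuous _ tr_z, ?_, deforms⟩
  filter_upwards [eventually_tr] with φ hφ
  rw [range_eq]
  exact discontinuous _ hφ

end Pool.Agent.Lib.MP_99bfa4_al.SL2
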