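import Pool.Agent.Lib.MP_99bfa4_al.SL2Group

/-! The lowest weight matrix coefficient of the holomorphic discrete series of SL(2, R):
mean value identity and square integrability for every Haar measure. -/

open Matrix Set MeasureTheory Complex
open scoped MatrixGroups Topology ComplexConjugate ENNReal Pointwise

namespace Pool.Agent.Lib.MP_99bfa4_al.SL2

/-- Twice the upper left entry of the image in SU(1,1). -/
noncomputable def cA (g : SL(2, ℝ)) : ℂ :=
  (g.val 0 0 + g.val 1 1 : ℝ) + (g.val 0 1 - g.val 1 0 : ℝ) * I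

/-- Twice the upper right entry of the image in SU(1,1). -/
noncomputable def cB (g : SL(2, ℝ)) : ℂ :=
  (g.val 0 0 - g.val 1 1 : ℝ) - (g.val 0 1 + g.val 1 0 : ℝ) * I

lemma cA_mul (x y : SL(2, ℝ)) : cA (x * y) = (cA x * cA y + cB x * conj (cB y)) / 2 := by
  simp only [cA, cB, mul_val]
  apply Complex.ext <;> simp <;> ring

lemma cB_mul (x y : SL(2, ℝ)) : cB (x * y) = (cA x * cB y + cB x * conj (cA y)) / 2 := by
  simp only [cA, cB, mul_val]
  apply Complex.ext <;> simp <;> ring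

lemma normSq_cA (g : SL(2, ℝ)) :
    ‖cA g‖ ^ 2 = g.val 0 0 ^ 2 + g.val 0 1 ^ 2 + g.val 1 0 ^ 2 + g.val 1 1 ^ 2 + 2 := by
  rw [Complex.sq_norm, cA, normSq_add_mul_I]
  linear_combination 2 * det_eq g

lemma normSq_cB (g : SL(2, ℝ)) : ‖cB g‖ ^ 2 = ‖cA g‖ ^ 2 - 4 := by
  rw [normSq_cA, Complex.sq_norm, cB, sub_eq_add_neg, ← neg_mul, ← ofReal_neg, normSq_add_mul_I]
  linear_combination (-2) * det_eq g

lemma cB_lt (g : SL(2, ℝ)) : ‖cB g‖ < ‖cA g‖ :=
  lt_of_pow_lt_pow_left₀ 2 (norm_nonneg _) (by rw [normSq_cB]; linarith)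

lemma one_le_cA (g : SL(2, ℝ)) : 1 ≤ ‖cA g‖ :=
  le_of_sq_le_sq (by
    rw [normSq_cA]
    nlinarith [sq_nonneg (g.val 0 0), sq_nonneg (g.val 0 1), sq_nonneg (g.val 1 0),
      sq_nonneg (g.val 1 1)]) (norm_nonneg _)

lemma cA_ne_zero (g : SL(2, ℝ)) : cA g ≠ 0 :=
  norm_pos_iff.1 (lt_of_lt_of_le one_pos (one_le_cA g))

lemma abs_le_cA (g : SL(2, ℝ)) (i j : Fin 2) : |g.val i j| ≤ ‖cA g‖ := by
  refine abs_le_of_sq_le_sq ?_ (norm_nonneg _)
  rw [normSq_cA]
  fin_cases i <;> fin_cases j <;> simp <;> nlinarith [sq_nonneg (g.val 0 0), sq_nonneg (g.val 0 1),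
    sq_nonneg (g.val 1 0), sq_nonneg (g.val 1 1)]

lemma continuous_cA : Continuous cA :=
  (continuous_ofReal.comp ((continuous_entry 0 0).add (continuous_entry 1 1))).add
    ((continuous_ofReal.comp ((continuous_entry 0 1).sub (continuous_entry 1 0))).mul
      continuous_const)

lemma continuous_cB : Continuous cB :=
  (continuous_ofReal.comp ((continuous_entry 0 0).sub (continuous_entry 1 1))).sub
    ((continuous_ofReal.comp ((continuous_entry 0 1).add (continuous_entry 1 0))).mul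
      continuous_const)

/-- Rotations. -/
noncomputable def rot (θ : ℝ) : SL(2, ℝ) :=
  ⟨!![Real.cos θ, Real.sin θ; -Real.sin θ, Real.cos θ], by
    rw [det_fin_two_of]
    linear_combination Real.cos_sq_add_sin_sq θ⟩

lemma rot_val (θ : ℝ) : (rot θ).val = !![Real.cos θ, Real.sin θ; -Real.sin θ, Real.cos θ] := rfl

lemma cA_rot (θ : ℝ) : cA (rot θ) = 2 * exp (θ * I) := by
  rw [cA, rot_val, exp_mul_I]
  simp
  ring

lemma cB_rot (θ : ℝ) : cB (rot θ) = 0 := by
  rw [cB, rot_val]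
  simp

lemma cA_rot_mul (θ : ℝ) (x : SL(2, ℝ)) : cA (rot θ * x) = exp (θ * I) * cA x := by
  rw [cA_mul, cA_rot, cB_rot]
  ring

lemma cB_rot_mul (θ : ℝ) (x : SL(2, ℝ)) : cB (rot θ * x) = exp (θ * I) * cB x := by
  rw [cB_mul, cA_rot, cB_rot]
  ring

lemma cA_mul_rot_mul (y x : SL(2, ℝ)) (θ : ℝ) : cA (y * (rot θ * x)) =
    exp (θ * I) * ((cA y * cA x + cB y * conj (cB x) * exp (((-2 * θ : ℝ) : ℂ) * I)) / 2) := by
  have h : conj (exp (θ * I)) = exp (θ * I) * exp (((-2 * θ : ℝ) : ℂ) * I) := by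
    rw [← exp_conj, ← Complex.exp_add]
    congr 1
    simp
    ring
  rw [cA_mul, cA_rot_mul, cB_rot_mul, map_mul, h]
  ring

/-- The matrix coefficient. -/
noncomputable def psi (n : ℕ) (g : SL(2, ℝ)) : ℂ := (cA g ^ n)⁻¹

lemma continuous_psi (n : ℕ) : Continuous (psi n) :=
  (continuous_cA.pow n).inv₀ fun g => pow_ne_zero n (cA_ne_zero g)

lemma psi_ne_zero (n : ℕ) (g : SL(2, ℝ)) : psi n g ≠ 0 :=
  inv_ne_zero (pow_ne_zero n (cA_ne_zero g))

/-- The kernel of the mean value identity. -/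
noncomputable def ker (n : ℕ) (y x : SL(2, ℝ)) (w : ℂ) : ℂ :=
  (((cA y * cA x + cB y * conj (cB x) * w) / 2) ^ n)⁻¹

lemma psi_rot_mul (n : ℕ) (θ : ℝ) (x : SL(2, ℝ)) :
    psi n (rot θ * x) = (exp (θ * I) ^ n)⁻¹ * psi n x := by
  rw [psi, psi, cA_rot_mul, mul_pow, mul_inv]

lemma psi_mul_rot_mul (n : ℕ) (y x : SL(2, ℝ)) (θ : ℝ) : psi n (y * (rot θ * x)) =
    (exp (θ * I) ^ n)⁻¹ * ker n y x (exp (((-2 * θ : ℝ) : ℂ) * I)) := by
  rw [psi, ker, cA_mul_rot_mul, mul_pow, mul_inv]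

lemma ker_zero (n : ℕ) (y x : SL(2, ℝ)) : ker n y x 0 = 2 ^ n * psi n y * psi n x := by
  have := cA_ne_zero x
  have := cA_ne_zero y
  simp only [ker, psi, mul_zero, add_zero, div_pow, mul_pow]
  field_simp

lemma ker_lower (y x : SL(2, ℝ)) {w : ℂ} (hw : ‖w‖ ≤ 1) :
    (‖cA y‖ - ‖cB y‖) / 2 * ‖cA x‖ ≤ ‖(cA y * cA x + cB y * conj (cB x) * w) / 2‖ := by
  have h1 : ‖cB y * conj (cB x) * w‖ ≤ ‖cB y‖ * ‖cA x‖ := by
    rw [norm_mul, norm_mul, Complex.norm_conj]
    calc ‖cB y‖ * ‖cB x‖ * ‖w‖ ≤ ‖cB y‖ * ‖cA x‖ * 1 := by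
          gcongr
          exact (cB_lt x).le
      _ = _ := mul_one _
  have h2 := norm_sub_le (cA y * cA x + cB y * conj (cB x) * w) (cB y * conj (cB x) * w)
  rw [add_sub_cancel_right, norm_mul] at h2
  rw [norm_div, Complex.norm_ofNat]
  linarith

lemma ker_base_ne (y x : SL(2, ℝ)) {w : ℂ} (hw : ‖w‖ ≤ 1) :
    (cA y * cA x + cB y * conj (cB x) * w) / 2 ≠ 0 := by
  refine norm_pos_iff.1 (lt_of_lt_of_le ?_ (ker_lower y x hw))
  have := cB_lt y
  have := one_le_cA x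
  exact mul_pos (by linarith) (by linarith)

lemma norm_ker_le (n : ℕ) (y x : SL(2, ℝ)) {w : ℂ} (hw : ‖w‖ ≤ 1) :
    ‖ker n y x w‖ ≤ (((‖cA y‖ - ‖cB y‖) / 2) ^ n)⁻¹ * ‖psi n x‖ := by
  have h1 := cB_lt y
  have h2 := one_le_cA x
  have h3 : 0 < (‖cA y‖ - ‖cB y‖) / 2 * ‖cA x‖ := mul_pos (by linarith) (by linarith)
  rw [ker, psi, norm_inv, norm_inv, norm_pow, norm_pow, ← mul_inv, ← mul_pow]
  exact inv_anti₀ (pow_pos h3 n) (pow_le_pow_left₀ h3.le (ker_lower y x hw) n)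

/-- The mean value identity. -/
lemma integral_ker (n : ℕ) (y x : SL(2, ℝ)) :
    ∫ φ in (0 : ℝ)..2 * Real.pi, ker n y x (exp (φ * I)) =
      (2 * Real.pi : ℝ) * (2 ^ n * psi n y * psi n x) := by
  have hd : ∀ w ∈ Metric.closedBall (0 : ℂ) |1|, DifferentiableAt ℂ (ker n y x) w := by
    intro w hw
    have hw' : ‖w‖ ≤ 1 := by simpa using hw
    exact DifferentiableAt.inv (by fun_prop) (pow_ne_zero n (ker_base_ne y x hw'))
  have h := circleAverage_of_differentiable_on_off_countable (f := ker n y x) (c := 0) (R := 1)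
    countable_empty (fun w hw => (hd w hw).continuousAt.continuousWithinAt)
    (fun w hw => hd w (Metric.ball_subset_closedBall hw.1))
  rw [ker_zero, Real.circleAverage_def] at h
  simp only [circleMap, ofReal_one, one_mul, zero_add] at h
  rw [← h, Complex.real_smul, ← mul_assoc, ← ofReal_mul, mul_inv_cancel₀ (by positivity)]
  simp

/-- Boxes. -/
def box (R : ℝ) : Set SL(2, ℝ) := {g | ∀ i j, |g.val i j| ≤ R}

lemma isCompact_box (R : ℝ) : IsCompact (box R) := by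
  have h : IsCompact (Set.pi univ fun _ : Fin 2 => Set.pi univ fun _ : Fin 2 => Icc (-R) R) :=
    isCompact_univ_pi fun _ => isCompact_univ_pi fun _ => isCompact_Icc
  have h2 := (Matrix.SpecialLinearGroup.isClosedEmbedding_val (n := Fin 2) (R := ℝ)).isCompact_preimage
    (K := Set.pi univ fun _ : Fin 2 => Set.pi univ fun _ : Fin 2 => Icc (-R) R) h
  refine h2.of_isClosed_subset ?_ fun g hg i _ j _ => abs_le.1 (hg i j)
  simp only [box, ofPred_forall]
  exact isClosed_iInter fun i => isClosed_iInter fun j =>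
    isClosed_le (continuous_entry i j).abs continuous_const

lemma inv_mul_mem_box {R : ℝ} (hR : 0 < R) {g g' : SL(2, ℝ)} (hg : g ∈ box R)
    (h : ∀ i j, |g'.val i j - g.val i j| ≤ 1 / (2 * R)) : g⁻¹ * g' ∈ box 2 := by
  have key : ∀ a b c d : ℝ, |a| ≤ R → |b| ≤ R → |c| ≤ 1 / (2 * R) → |d| ≤ 1 / (2 * R) →
      |a * c - b * d| ≤ 1 := by
    intro a b c d ha hb hc hd
    have h1 : R * (1 / (2 * R)) = 1 / 2 := by field_simp
    have h2 : |a * c| ≤ 1 / 2 := by
      rw [abs_mul, ← h1]; gcongr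
    have h3 : |b * d| ≤ 1 / 2 := by
      rw [abs_mul, ← h1]; gcongr
    linarith [abs_sub (a * c) (b * d)]
  have hd := det_eq g
  intro i j
  rw [mul_val, inv_val]
  fin_cases i <;> fin_cases j <;> simp only [Fin.zero_eta, Fin.mk_one, Fin.isValue, of_apply,
    cons_val', cons_val_zero, cons_val_one, cons_val_fin_one]
  · have := abs_le.1 (key _ _ _ _ (hg 1 1) (hg 0 1) (h 0 0) (h 1 0))
    rw [abs_le]; constructor <;> nlinarith
  · have := abs_le.1 (key _ _ _ _ (hg 1 1) (hg 0 1) (h 0 1) (h 1 1))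
    rw [abs_le]; constructor <;> nlinarith
  · have := abs_le.1 (key _ _ _ _ (hg 0 0) (hg 1 0) (h 1 0) (h 0 0))
    rw [abs_le]; constructor <;> nlinarith
  · have := abs_le.1 (key _ _ _ _ (hg 0 0) (hg 1 0) (h 1 1) (h 0 1))
    rw [abs_le]; constructor <;> nlinarith

section

variable [MeasurableSpace SL(2, ℝ)] [BorelSpace SL(2, ℝ)] (μ : Measure SL(2, ℝ))
  [μ.IsMulLeftInvariant]

lemma measure_box (R : ℕ) (hR : 0 < R) :
    μ (box R) ≤ ((4 * R ^ 2 + 1) ^ 4 : ℕ) * μ (box 2) := by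
  set T : Finset (Fin 2 → Fin 2 → ℤ) := Fintype.piFinset fun _ => Fintype.piFinset fun _ =>
    Finset.Icc (-(2 * R ^ 2 : ℤ)) (2 * R ^ 2) with hT
  have hR' : (0 : ℝ) < R := by exact_mod_cast hR
  have hcard : T.card = (4 * R ^ 2 + 1) ^ 4 := by
    have : (Finset.Icc (-(2 * R ^ 2 : ℤ)) (2 * R ^ 2)).card = 4 * R ^ 2 + 1 := by
      rw [Int.card_Icc]
      have : (2 * R ^ 2 : ℤ) + 1 - -(2 * R ^ 2) = ((4 * R ^ 2 + 1 : ℕ) : ℤ) := by push_cast; ring
      rw [this, Int.toNat_natCast]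
    simp only [hT, Fintype.card_piFinset, this, Finset.prod_const, Finset.card_univ,
      Fintype.card_fin]
    ring
  set S : (Fin 2 → Fin 2 → ℤ) → Set SL(2, ℝ) := fun m =>
    {g | g ∈ box R ∧ ∀ i j, ⌊2 * R * g.val i j⌋ = m i j} with hS
  have h1 : box R ⊆ ⋃ m ∈ T, S m := by
    intro g hg
    refine mem_biUnion (x := fun i j => ⌊2 * R * g.val i j⌋) ?_ ⟨hg, fun _ _ => rfl⟩
    simp only [hT, Finset.mem_coe, Fintype.mem_piFinset, Finset.mem_Icc]
    intro i j
    have h := abs_le.1 (hg i j)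
    constructor
    · rw [Int.le_floor]
      push_cast
      nlinarith
    · have h3 : ((⌊2 * R * g.val i j⌋ : ℤ) : ℝ) ≤ ((2 * R ^ 2 : ℤ) : ℝ) := by
        refine (Int.floor_le _).trans ?_
        push_cast
        nlinarith
      exact_mod_cast h3
  have h2 : ∀ m, μ (S m) ≤ μ (box 2) := by
    intro m
    rcases (S m).eq_empty_or_nonempty with h | ⟨g, hg⟩
    · simp [h]
    · rw [← measure_preimage_mul μ g⁻¹ (box 2)]
      refine measure_mono fun g' hg' => inv_mul_mem_box hR' hg.1 fun i j => ?_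
      have h3 := Int.abs_sub_lt_one_of_floor_eq_floor ((hg'.2 i j).trans (hg.2 i j).symm)
      rw [← mul_sub, abs_mul, abs_of_pos (by positivity : (0 : ℝ) < 2 * R)] at h3
      rw [le_div_iff₀ (by positivity)]
      linarith
  calc μ (box R) ≤ ∑ m ∈ T, μ (S m) := (measure_mono h1).trans (measure_biUnion_finset_le T S)
    _ ≤ ∑ _m ∈ T, μ (box 2) := Finset.sum_le_sum fun m _ => h2 m
    _ = _ := by rw [Finset.sum_const, hcard, nsmul_eq_mul]

theorem memLp_psi [IsFiniteMeasureOnCompacts μ] {n : ℕ} (hn : 5 ≤ n) : MemLp (psi n) 2 μ := by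
  rw [memLp_two_iff_integrable_sq_norm (continuous_psi n).aestronglyMeasurable]
  set s : ℕ → Set SL(2, ℝ) := fun R => {g | (R + 1 : ℝ) ≤ ‖cA g‖ ∧ ‖cA g‖ ≤ R + 2} with hs
  have hsub : ∀ R, s R ⊆ box ((R + 2 : ℕ) : ℝ) := fun R g hg i j => by
    push_cast
    exact (abs_le_cA g i j).trans hg.2
  have hfin : ∀ R, μ (s R) < ∞ := fun R =>
    (measure_mono (hsub R)).trans_lt (isCompact_box _).measure_lt_top
  have hc : Continuous fun g => ‖psi n g‖ ^ 2 := (continuous_psi n).norm.pow 2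
  have hbd : ∀ R, ∀ g ∈ s R, ‖‖psi n g‖ ^ 2‖ ≤ (((R : ℝ) + 1) ^ 10)⁻¹ := by
    intro R g hg
    rw [norm_pow, norm_norm, psi, norm_inv, norm_pow, inv_pow, ← pow_mul]
    refine inv_anti₀ (by positivity) ?_
    exact (pow_le_pow_left₀ (by positivity) hg.1 10).trans
      (pow_le_pow_right₀ (one_le_cA g) (by omega))
  have hmeas : ∀ R, MeasurableSet (s R) := fun R =>
    ((isClosed_le continuous_const continuous_cA.norm).inter
      (isClosed_le continuous_cA.norm continuous_const)).measurableSet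
  have huniv : ⋃ R, s R = univ := by
    refine eq_univ_of_forall fun g => mem_iUnion.2 ⟨⌊‖cA g‖ - 1⌋₊, ?_, ?_⟩
    · have := Nat.floor_le (sub_nonneg.2 (one_le_cA g))
      linarith
    · have := Nat.lt_floor_add_one (‖cA g‖ - 1)
      linarith
  rw [← integrableOn_univ, ← huniv]
  refine integrableOn_iUnion_of_summable_integral_norm (fun R => ?_) ?_
  · exact Measure.integrableOn_of_bounded (hfin R).ne hc.aestronglyMeasurable
      ((ae_restrict_iff' (hmeas R)).2 (Filter.Eventually.of_forall (hbd R)))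
  · have hsum : Summable fun R : ℕ => (17 * 4) ^ 4 * μ.real (box 2) * (1 / ((R + 1 : ℕ) : ℝ) ^ 2) :=
      ((summable_nat_add_iff 1).2 (Real.summable_one_div_nat_pow.2 one_lt_two)).mul_left _
    refine Summable.of_nonneg_of_le (fun R => integral_nonneg fun g => norm_nonneg _)
      (fun R => ?_) hsum
    have h1 := norm_setIntegral_le_of_norm_le_const (μ := μ) (f := fun g => ‖‖psi n g‖ ^ 2‖)
      (hfin R) (fun g hg => by rw [norm_norm]; exact hbd R g hg)
    have h2 : μ.real (s R) ≤ ((4 * (R + 2) ^ 2 + 1) ^ 4 : ℕ) * μ.real (box 2) := by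
      have h3 := (measure_mono (hsub R)).trans (measure_box μ (R + 2) (by omega))
      have h4 := ENNReal.toReal_mono (ENNReal.mul_ne_top (ENNReal.natCast_ne_top _)
        (isCompact_box 2).measure_lt_top.ne) h3
      rwa [ENNReal.toReal_mul, ENNReal.toReal_natCast] at h4
    have h5 : (((4 * (R + 2) ^ 2 + 1) ^ 4 : ℕ) : ℝ) ≤ (17 * 4 * ((R : ℝ) + 1) ^ 2) ^ 4 := by
      push_cast
      have : (0 : ℝ) ≤ R := Nat.cast_nonneg R
      gcongr
      nlinarith
    have h6 : 0 ≤ μ.real (box 2) := measureReal_nonneg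
    refine (le_abs_self _).trans (h1.trans ?_)
    calc (((R : ℝ) + 1) ^ 10)⁻¹ * μ.real (s R)
        ≤ (((R : ℝ) + 1) ^ 10)⁻¹ * ((17 * 4 * ((R : ℝ) + 1) ^ 2) ^ 4 * μ.real (box 2)) := by
          gcongr
          exact h2.trans (by gcongr)
      _ = _ := by
          push_cast
          field_simp

end

end Pool.Agent.Lib.MP_99bfa4_al.SL2
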