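import Pool.Agent.Lib.MP_99bfa4_al.SL2Group

/-! The left invariant differential operators on SL(2, R) are generated by the three left
invariant vector fields, and every character of their algebra kills these fields. -/

open Matrix Set
open scoped MatrixGroups Topology ContDiff

namespace Pool.Agent.Lib.MP_99bfa4_al.SL2

/-- The space of arrays of four real numbers. -/
abbrev E : Type := Fin 2 → Fin 2 → ℝ

/-- The entries of a group element. -/
def co (g : SL(2, ℝ)) : E := fun i j => g.val i j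

/-- The matrix product. -/
def mulE (x B : E) : E := fun i j => x i 0 * B 0 j + x i 1 * B 1 j

lemma co_mul (g h : SL(2, ℝ)) : co (g * h) = mulE (co g) (co h) := by
  funext i j
  exact mul_val g h i j

/-- Right multiplication as a continuous linear map. -/
noncomputable def mulR (B : E) : E →L[ℝ] E :=
  LinearMap.toContinuousLinearMap
    { toFun := fun x => mulE x B
      map_add' := fun x y => by funext i j; simp [mulE]; ring
      map_smul' := fun c x => by funext i j; simp [mulE]; ring }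

lemma mulR_apply (B x : E) : mulR B x = mulE x B := rfl

/-- Left multiplication as a continuous linear map. -/
noncomputable def mulL (x : E) : E →L[ℝ] E :=
  LinearMap.toContinuousLinearMap
    { toFun := fun B => mulE x B
      map_add' := fun x y => by funext i j; simp [mulE]; ring
      map_smul' := fun c x => by funext i j; simp [mulE]; ring }

lemma mulL_apply (B x : E) : mulL x B = mulE x B := rfl

/-- Tangent vectors at the identity. -/
def Tang (B : E) : Prop :=
  ∃ P : ℝ → SL(2, ℝ), P 0 = 1 ∧ HasDerivAt (fun t => co (P t)) B 0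

lemma hasDerivAt_curve {f : SL(2, ℝ) → ℂ} {F : E → ℂ} (hF : ContDiff ℝ ∞ F)
    (hf : ∀ g, f g = F (co g)) {c : ℝ → SL(2, ℝ)} {v : E}
    (hc : HasDerivAt (fun t => co (c t)) v 0) :
    HasDerivAt (fun t => f (c t)) (fderiv ℝ F (co (c 0)) v) 0 := by
  have h1 : HasFDerivAt F (fderiv ℝ F (co (c 0))) (co (c 0)) :=
    (hF.differentiable (by simp) _).hasFDerivAt
  have h2 := h1.comp_hasDerivAt (0 : ℝ) hc
  simp only [hf]
  exact h2

lemma hasDerivAt_mul (g : SL(2, ℝ)) {P : ℝ → SL(2, ℝ)} {B : E}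
    (hP : HasDerivAt (fun t => co (P t)) B 0) :
    HasDerivAt (fun t => co (g * P t)) (mulE (co g) B) 0 := by
  simp only [co_mul]
  exact (mulL (co g)).hasFDerivAt.comp_hasDerivAt (0 : ℝ) hP

lemma hasDerivAt_field {f : SL(2, ℝ) → ℂ} {F : E → ℂ} (hF : ContDiff ℝ ∞ F)
    (hf : ∀ g, f g = F (co g)) {P : ℝ → SL(2, ℝ)} {B : E} (h0 : P 0 = 1)
    (hP : HasDerivAt (fun t => co (P t)) B 0) (g : SL(2, ℝ)) :
    HasDerivAt (fun t => f (g * P t)) (fderiv ℝ F (co g) (mulE (co g) B)) 0 := by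
  have := hasDerivAt_curve hF hf (hasDerivAt_mul g hP)
  simpa only [h0, mul_one] using this

lemma contDiff_field {F : E → ℂ} (hF : ContDiff ℝ ∞ F) (B : E) :
    ContDiff ℝ ∞ fun x => fderiv ℝ F x (mulE x B) :=
  (hF.fderiv_right (m := ∞) (by simp)).clm_apply (mulR B).contDiff

/-- The curve of a tangent vector. -/
noncomputable def Tang.curve {B : E} (h : Tang B) : ℝ → SL(2, ℝ) := h.choose

lemma Tang.field {B : E} (h : Tang B) {f : SL(2, ℝ) → ℂ} {F : E → ℂ} (hF : ContDiff ℝ ∞ F)
    (hf : ∀ g, f g = F (co g)) (g : SL(2, ℝ)) :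
    HasDerivAt (fun t => f (g * h.curve t)) (fderiv ℝ F (co g) (mulE (co g) B)) 0 :=
  hasDerivAt_field hF hf h.choose_spec.1 h.choose_spec.2 g

lemma Tang.diff {B : E} (h : Tang B) (f : Smooth) (g : SL(2, ℝ)) :
    DifferentiableAt ℝ (fun t => f.val (g * h.curve t)) 0 := by
  obtain ⟨F, hF, hf⟩ := f.property
  exact (h.field hF hf g).differentiableAt

/-- The left invariant vector field of a tangent vector. -/
noncomputable def vf {B : E} (h : Tang B) : Module.End ℂ Smooth where
  toFun f := ⟨fun g => deriv (fun t => f.val (g * h.curve t)) 0, by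
    obtain ⟨F, hF, hf⟩ := f.property
    exact ⟨_, contDiff_field hF B, fun g => (h.field hF hf g).deriv⟩⟩
  map_add' f f' := by
    ext g
    exact deriv_fun_add (h.diff f g) (h.diff f' g)
  map_smul' c f := by
    ext g
    exact deriv_fun_const_smul c (h.diff f g)

lemma vf_val {B : E} (h : Tang B) (f : Smooth) (g : SL(2, ℝ)) :
    (vf h f).val g = deriv (fun t => f.val (g * h.curve t)) 0 := rfl

lemma vf_apply {B : E} (h : Tang B) (f : Smooth) {F : E → ℂ} (hF : ContDiff ℝ ∞ F)
    (hf : ∀ g, f.val g = F (co g)) (g : SL(2, ℝ)) :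
    (vf h f).val g = fderiv ℝ F (co g) (mulE (co g) B) := (h.field hF hf g).deriv

lemma vf_leibniz {B : E} (h : Tang B) (a f : Smooth) :
    vf h (a * f) = a * vf h f + vf h a * f := by
  ext g
  have h0 : h.curve 0 = 1 := h.choose_spec.1
  have := deriv_fun_mul (h.diff a g) (h.diff f g)
  simp only [h0, mul_one] at this
  change deriv (fun t => a.val (g * h.curve t) * f.val (g * h.curve t)) 0 =
    a.val g * (vf h f).val g + (vf h a).val g * f.val g
  rw [this, vf_val, vf_val]
  ring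

lemma vf_vf {B C : E} (hB : Tang B) (hC : Tang C) (f : Smooth) {F : E → ℂ} (hF : ContDiff ℝ ∞ F)
    (hf : ∀ g, f.val g = F (co g)) (g : SL(2, ℝ)) :
    (vf hB (vf hC f)).val g = fderiv ℝ (fderiv ℝ F) (co g) (mulE (co g) B) (mulE (co g) C) +
      fderiv ℝ F (co g) (mulE (mulE (co g) B) C) := by
  rw [vf_apply hB (vf hC f) (contDiff_field hF C) (vf_apply hC f hF hf)]
  have h1 : HasFDerivAt (fderiv ℝ F) (fderiv ℝ (fderiv ℝ F) (co g)) (co g) :=
    ((hF.fderiv_right (m := ∞) (by simp)).differentiable (by simp) _).hasFDerivAt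
  have h2 : HasFDerivAt (fun x => mulE x C) (mulR C) (co g) := (mulR C).hasFDerivAt
  rw [(h1.clm_apply h2).fderiv]
  simp [mulR_apply, add_comm]

lemma vf_bracket {B C D : E} (hB : Tang B) (hC : Tang C) (hD : Tang D) (c : ℝ)
    (h : ∀ x, mulE (mulE x B) C - mulE (mulE x C) B = c • mulE x D) :
    vf hB * vf hC = vf hC * vf hB + (c : ℂ) • vf hD := by
  ext f g
  obtain ⟨F, hF, hf⟩ := f.property
  change (vf hB (vf hC f)).val g = (vf hC (vf hB f)).val g + (c : ℂ) * (vf hD f).val g
  rw [← sub_eq_iff_eq_add', vf_vf hB hC f hF hf, vf_vf hC hB f hF hf, vf_apply hD f hF hf]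
  have hs : IsSymmSndFDerivAt ℝ F (co g) := hF.contDiffAt.isSymmSndFDerivAt (by
    simp only [minSmoothness_of_isRCLikeNormedField]
    exact WithTop.coe_le_coe.2 (le_top (a := (2 : ℕ∞))))
  rw [hs (mulE (co g) B) (mulE (co g) C), add_sub_add_left_eq_sub, ← map_sub, h, map_smul]
  simp

/-- The three basis vectors of the Lie algebra. -/
def bE : E := fun i j => if i = 0 ∧ j = 1 then 1 else 0

/-- The three basis vectors of the Lie algebra. -/
def bF : E := fun i j => if i = 1 ∧ j = 0 then 1 else 0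

/-- The three basis vectors of the Lie algebra. -/
def bH : E := fun i j => if i = j then (if i = 0 then 1 else -1) else 0

lemma tang_E : Tang bE := by
  refine ⟨fun t => ⟨!![1, t; 0, 1], by simp [det_fin_two]⟩, ?_, ?_⟩
  · ext i j
    fin_cases i <;> fin_cases j <;> simp
  · refine hasDerivAt_pi.2 fun i => hasDerivAt_pi.2 fun j => ?_
    fin_cases i <;> fin_cases j <;> simp [co, bE, hasDerivAt_const, hasDerivAt_id']

lemma tang_F : Tang bF := by
  refine ⟨fun t => ⟨!![1, 0; t, 1], by simp [det_fin_two]⟩, ?_, ?_⟩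
  · ext i j
    fin_cases i <;> fin_cases j <;> simp
  · refine hasDerivAt_pi.2 fun i => hasDerivAt_pi.2 fun j => ?_
    fin_cases i <;> fin_cases j <;> simp [co, bF, hasDerivAt_const, hasDerivAt_id']

lemma tang_H : Tang bH := by
  refine ⟨dg, dg_zero, ?_⟩
  refine hasDerivAt_pi.2 fun i => hasDerivAt_pi.2 fun j => ?_
  fin_cases i <;> fin_cases j <;> simp [co, bH, dg_val, hasDerivAt_const]
  · simpa using Real.hasDerivAt_exp 0
  · simpa using (hasDerivAt_neg (0 : ℝ)).exp

lemma br_EF : vf tang_E * vf tang_F = vf tang_F * vf tang_E + ((1 : ℝ) : ℂ) • vf tang_H :=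
  vf_bracket _ _ _ _ fun x => by
    funext i j
    fin_cases j <;> simp [mulE, bE, bF, bH]

lemma br_HE : vf tang_H * vf tang_E = vf tang_E * vf tang_H + ((2 : ℝ) : ℂ) • vf tang_E :=
  vf_bracket _ _ _ _ fun x => by
    funext i j
    fin_cases j <;> simp [mulE, bE, bH]
    ring

lemma br_FH : vf tang_F * vf tang_H = vf tang_H * vf tang_F + ((2 : ℝ) : ℂ) • vf tang_F :=
  vf_bracket _ _ _ _ fun x => by
    funext i j
    fin_cases j <;> simp [mulE, bF, bH]
    ring

/-- Multiplication by a smooth function. -/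
noncomputable def mulOp (a : Smooth) : Module.End ℂ Smooth := LinearMap.mulLeft ℂ a

lemma mulOp_apply (a f : Smooth) : mulOp a f = a * f := rfl

/-- The coordinate functions. -/
noncomputable def xc (i j : Fin 2) : Smooth :=
  ⟨fun g => (g.val i j : ℂ), fun x => (x i j : ℂ),
    Complex.ofRealCLM.contDiff.comp (by fun_prop), fun _ => rfl⟩

/-- Vector fields in the sense of the definition of differential operators. -/
def IsVF (D : Module.End ℂ Smooth) : Prop :=
  ∀ y, ∃ c : ℝ → SL(2, ℝ), c 0 = y ∧ ∀ f : Smooth, HasDerivAt (fun t => f.val (c t)) ((D f).val y) 0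

lemma isVF_vf {B : E} (h : Tang B) : IsVF (vf h) := fun y =>
  ⟨fun t => y * h.curve t, by
    have h0 : h.curve 0 = 1 := h.choose_spec.1
    simp only [h0, mul_one], fun f => (h.diff f y).hasDerivAt⟩

lemma vf_decomp {D : Module.End ℂ Smooth} (hD : IsVF D) :
    D = mulOp (xc 1 1 * D (xc 0 1) - xc 0 1 * D (xc 1 1)) * vf tang_E +
      mulOp (xc 0 0 * D (xc 1 0) - xc 1 0 * D (xc 0 0)) * vf tang_F +
      mulOp (xc 1 1 * D (xc 0 0) - xc 0 1 * D (xc 1 0)) * vf tang_H := by
  ext f y
  obtain ⟨c, hc0, hc⟩ := hD y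
  obtain ⟨F, hF, hf⟩ := f.property
  set v : E := fun i j => ((D (xc i j)).val y).re with hv
  have h1 : ∀ i j, HasDerivAt (fun t => (c t).val i j) (v i j) 0 := fun i j => by
    have := Complex.reCLM.hasFDerivAt.comp_hasDerivAt (0 : ℝ) (hc (xc i j))
    exact this
  have h2 : ∀ i j, (D (xc i j)).val y = (v i j : ℂ) := fun i j =>
    (hc (xc i j)).unique (h1 i j).ofReal_comp
  have h3 : HasDerivAt (fun t => co (c t)) v 0 :=
    hasDerivAt_pi.2 fun i => hasDerivAt_pi.2 fun j => h1 i j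
  have h4 : (D f).val y = fderiv ℝ F (co y) v := by
    have := hasDerivAt_curve hF hf h3
    rw [hc0] at this
    exact (hc f).unique this
  have h5 : v 0 0 * y.val 1 1 + y.val 0 0 * v 1 1 - (v 0 1 * y.val 1 0 + y.val 0 1 * v 1 0) = 0 := by
    have h6 := ((h1 0 0).fun_mul (h1 1 1)).fun_sub ((h1 0 1).fun_mul (h1 1 0))
    simp only [det_eq, hc0] at h6
    exact h6.unique (hasDerivAt_const _ _)
  have hd := det_eq y
  have h7 : v = (y.val 1 1 * v 0 1 - y.val 0 1 * v 1 1) • mulE (co y) bE +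
      (y.val 0 0 * v 1 0 - y.val 1 0 * v 0 0) • mulE (co y) bF +
      (y.val 1 1 * v 0 0 - y.val 0 1 * v 1 0) • mulE (co y) bH := by
    funext i j
    fin_cases i <;> fin_cases j <;> simp [mulE, bE, bF, bH, co]
    · linear_combination (-v 0 0) * hd
    · linear_combination (-v 0 1) * hd + y.val 0 1 * h5
    · linear_combination (-v 1 0) * hd
    · linear_combination (-v 1 1) * hd + y.val 1 1 * h5
  change (D f).val y =
    ((y.val 1 1 : ℂ) * (D (xc 0 1)).val y - (y.val 0 1 : ℂ) * (D (xc 1 1)).val y) *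
      (vf tang_E f).val y +
    ((y.val 0 0 : ℂ) * (D (xc 1 0)).val y - (y.val 1 0 : ℂ) * (D (xc 0 0)).val y) *
      (vf tang_F f).val y +
    ((y.val 1 1 : ℂ) * (D (xc 0 0)).val y - (y.val 0 1 : ℂ) * (D (xc 1 0)).val y) *
      (vf tang_H f).val y
  rw [h4, vf_apply _ f hF hf, vf_apply _ f hF hf, vf_apply _ f hF hf, h2, h2, h2, h2]
  conv_lhs => rw [h7]
  simp

/-- The algebra generated by the three left invariant vector fields. -/
noncomputable def U : Subalgebra ℂ (Module.End ℂ Smooth) :=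
  Algebra.adjoin ℂ {vf tang_E, vf tang_F, vf tang_H}

/-- Combinations of elements of U with smooth coefficients. -/
noncomputable def M : Submodule ℂ (Module.End ℂ Smooth) :=
  Submodule.span ℂ {T | ∃ a : Smooth, ∃ b ∈ U, T = mulOp a * b}

lemma mul_mem_M {D : Module.End ℂ Smooth} (h : ∀ a : Smooth, ∀ b ∈ U, D * (mulOp a * b) ∈ M)
    {m : Module.End ℂ Smooth} (hm : m ∈ M) : D * m ∈ M := by
  induction hm using Submodule.span_induction with
  | mem x hx =>
    obtain ⟨a, b, hb, rfl⟩ := hx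
    exact h a b hb
  | zero => simp
  | add x y _ _ hx hy => rw [mul_add]; exact M.add_mem hx hy
  | smul c x _ hx => rw [mul_smul_comm]; exact M.smul_mem c hx

lemma mulOp_mul_mem (a : Smooth) {m : Module.End ℂ Smooth} (hm : m ∈ M) : mulOp a * m ∈ M := by
  refine mul_mem_M (fun a' b hb => Submodule.subset_span ⟨a * a', b, hb, ?_⟩) hm
  ext f y
  simp [mulOp_apply, mul_assoc]

lemma vf_mul_mem {B : E} (h : Tang B) (hU : vf h ∈ U) {m : Module.End ℂ Smooth} (hm : m ∈ M) :
    vf h * m ∈ M := by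
  refine mul_mem_M (fun a b hb => ?_) hm
  have : vf h * (mulOp a * b) = mulOp a * (vf h * b) + mulOp (vf h a) * b := by
    refine LinearMap.ext fun f => ?_
    exact vf_leibniz h a (b f)
  rw [this]
  exact M.add_mem (Submodule.subset_span ⟨a, _, U.mul_mem hU hb, rfl⟩)
    (Submodule.subset_span ⟨_, _, hb, rfl⟩)

lemma mem_M {D : Module.End ℂ Smooth}
    (hD : D ∈ Algebra.adjoin ℂ ({D : Module.End ℂ Smooth | ∃ a : Smooth, ∀ f, D f = a * f} ∪
      {D | IsVF D})) : D ∈ M := by
  have key : ∀ m ∈ M, D * m ∈ M := by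
    induction hD using Algebra.adjoin_induction with
    | mem x hx =>
      rcases hx with ⟨a, ha⟩ | hx
      · have : x = mulOp a := LinearMap.ext ha
        rw [this]
        exact fun m hm => mulOp_mul_mem a hm
      · intro m hm
        rw [vf_decomp hx, add_mul, add_mul, mul_assoc, mul_assoc, mul_assoc]
        refine M.add_mem (M.add_mem ?_ ?_) ?_ <;> refine mulOp_mul_mem _ (vf_mul_mem _ ?_ hm) <;>
          exact Algebra.subset_adjoin (by simp)
    | algebraMap r =>
      intro m hm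
      rw [← Algebra.smul_def]
      exact M.smul_mem r hm
    | add x y _ _ hx hy =>
      intro m hm
      rw [add_mul]
      exact M.add_mem (hx m hm) (hy m hm)
    | mul x y _ _ hx hy =>
      intro m hm
      rw [mul_assoc]
      exact hx _ (hy m hm)
  have h1 : (1 : Module.End ℂ Smooth) ∈ M :=
    Submodule.subset_span ⟨1, 1, U.one_mem, LinearMap.ext fun f => by simp [mulOp_apply]⟩
  simpa using key 1 h1

lemma eval_one {m : Module.End ℂ Smooth} (hm : m ∈ M) :
    ∃ b ∈ U, ∀ f, (m f).val 1 = (b f).val 1 := by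
  induction hm using Submodule.span_induction with
  | mem x hx =>
    obtain ⟨a, b, hb, rfl⟩ := hx
    exact ⟨a.val 1 • b, U.smul_mem hb _, fun f => rfl⟩
  | zero => exact ⟨0, U.zero_mem, fun _ => rfl⟩
  | add x y _ _ hx hy =>
    obtain ⟨b, hb, h⟩ := hx
    obtain ⟨b', hb', h'⟩ := hy
    refine ⟨b + b', U.add_mem hb hb', fun f => ?_⟩
    change (x f).val 1 + (y f).val 1 = (b f).val 1 + (b' f).val 1
    rw [h, h']
  | smul c x _ hx =>
    obtain ⟨b, hb, h⟩ := hx
    refine ⟨c • b, U.smul_mem hb c, fun f => ?_⟩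
    change c * (x f).val 1 = c * (b f).val 1
    rw [h]

/-- Left translation. -/
noncomputable def transl (g : SL(2, ℝ)) : Module.End ℂ Smooth where
  toFun f := ⟨fun y => f.val (g⁻¹ * y), by
    obtain ⟨F, hF, hf⟩ := f.property
    refine ⟨fun x => F (mulE (co g⁻¹) x), hF.comp (mulL (co g⁻¹)).contDiff, fun y => ?_⟩
    exact (hf _).trans (congrArg F (co_mul g⁻¹ y))⟩
  map_add' _ _ := rfl
  map_smul' _ _ := rfl

lemma vf_mem {B : E} (h : Tang B) :
    vf h ∈ Gen.InvDiffOp SL(2, ℝ) (Subtype.val : Smooth → SL(2, ℝ) → ℂ) := by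
  refine ⟨Algebra.subset_adjoin (Or.inr (isVF_vf h)), ?_⟩
  rintro T ⟨g, hg⟩
  ext f y
  change (T (vf h f)).val y = (vf h (T f)).val y
  rw [hg, vf_val, vf_val]
  simp only [hg, smul_eq_mul, mul_assoc]

lemma U_le : U ≤ Gen.InvDiffOp SL(2, ℝ) (Subtype.val : Smooth → SL(2, ℝ) → ℂ) := by
  refine Algebra.adjoin_le ?_
  rintro _ (rfl | rfl | rfl) <;> exact vf_mem _

/-- Every left invariant differential operator is a polynomial in the three vector fields. -/
theorem inv_eq_U : Gen.InvDiffOp SL(2, ℝ) (Subtype.val : Smooth → SL(2, ℝ) → ℂ) = U := by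
  refine le_antisymm (fun D hD => ?_) U_le
  obtain ⟨b, hb, h⟩ := eval_one (mem_M hD.1)
  have key : ∀ T ∈ Gen.InvDiffOp SL(2, ℝ) (Subtype.val : Smooth → SL(2, ℝ) → ℂ), ∀ f y,
      (T f).val y = (T (transl y⁻¹ f)).val 1 := fun T hT f y => by
    have h1 : transl y⁻¹ * T = T * transl y⁻¹ := hT.2 _ ⟨y⁻¹, fun _ _ => rfl⟩
    have h2 : T (transl y⁻¹ f) = transl y⁻¹ (T f) := (LinearMap.congr_fun h1 f).symm
    rw [h2]
    change _ = (T f).val (y⁻¹⁻¹ * 1)
    rw [inv_inv, mul_one]
  have : D = b := by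
    ext f y
    rw [key D hD, key b (U_le hb), h]
  rw [this]
  exact hb

/-- The invariant differential operators. -/
noncomputable abbrev DD : Subalgebra ℂ (Module.End ℂ Smooth) :=
  Gen.InvDiffOp SL(2, ℝ) (Subtype.val : Smooth → SL(2, ℝ) → ℂ)

/-- A left invariant vector field as an invariant differential operator. -/
noncomputable def vfD {B : E} (h : Tang B) : DD := ⟨vf h, vf_mem h⟩

lemma kill (l : DD →ₐ[ℂ] ℂ) {B C D : E} (hB : Tang B) (hC : Tang C) (hD : Tang D) (c : ℝ)
    (hc : c ≠ 0) (h : vf hB * vf hC = vf hC * vf hB + (c : ℂ) • vf hD) : l (vfD hD) = 0 := by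
  have h1 : vfD hB * vfD hC = vfD hC * vfD hB + (c : ℂ) • vfD hD :=
    Subtype.ext h
  have h2 := congrArg l h1
  rw [map_add, map_mul, map_mul, mul_comm, map_smul, smul_eq_mul, left_eq_add] at h2
  exact (mul_eq_zero.1 h2).resolve_left (by exact_mod_cast hc)

theorem oneChar : Gen.OneChar SL(2, ℝ) (Subtype.val : Smooth → SL(2, ℝ) → ℂ) := by
  intro l l'
  ext ⟨D, hD⟩
  have hU : D ∈ U := inv_eq_U ▸ hD
  have key : ∀ hU : D ∈ U, l ⟨D, U_le hU⟩ = l' ⟨D, U_le hU⟩ := by
    clear hD hU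
    intro hU
    induction hU using Algebra.adjoin_induction with
    | mem x hx =>
      rcases hx with rfl | rfl | rfl
      · exact (kill l _ _ _ 2 two_ne_zero br_HE).trans (kill l' _ _ _ 2 two_ne_zero br_HE).symm
      · exact (kill l _ _ _ 2 two_ne_zero br_FH).trans (kill l' _ _ _ 2 two_ne_zero br_FH).symm
      · exact (kill l _ _ _ 1 one_ne_zero br_EF).trans (kill l' _ _ _ 1 one_ne_zero br_EF).symm
    | algebraMap r => exact (l.commutes r).trans (l'.commutes r).symm
    | add x y hx' hy' hx hy =>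
      exact ((map_add l ⟨x, U_le hx'⟩ ⟨y, U_le hy'⟩).trans (congrArg₂ (· + ·) hx hy)).trans
        (map_add l' ⟨x, U_le hx'⟩ ⟨y, U_le hy'⟩).symm
    | mul x y hx' hy' hx hy =>
      exact ((map_mul l ⟨x, U_le hx'⟩ ⟨y, U_le hy'⟩).trans (congrArg₂ (· * ·) hx hy)).trans
        (map_mul l' ⟨x, U_le hx'⟩ ⟨y, U_le hy'⟩).symm
  exact key hU

theorem nonComm : Gen.NonComm SL(2, ℝ) (Subtype.val : Smooth → SL(2, ℝ) → ℂ) := by
  refine ⟨_, vf_mem tang_E, _, vf_mem tang_F, fun h => ?_⟩
  have h1 := congrArg (fun D : Module.End ℂ Smooth => (D (xc 0 0)).val 1) (h.symm.trans br_EF)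
  have h2 : (vf tang_H (xc 0 0)).val 1 = 1 := by
    have h3 : HasFDerivAt (fun x : E => ((x 0 0 : ℝ) : ℂ))
        (Complex.ofRealCLM.comp ((ContinuousLinearMap.proj (R := ℝ) (φ := fun _ : Fin 2 => ℝ) 0).comp
          (ContinuousLinearMap.proj (R := ℝ) (φ := fun _ : Fin 2 => Fin 2 → ℝ) 0))) (co 1) :=
      (Complex.ofRealCLM.comp ((ContinuousLinearMap.proj (R := ℝ) (φ := fun _ : Fin 2 => ℝ) 0).comp
        (ContinuousLinearMap.proj (R := ℝ) (φ := fun _ : Fin 2 => Fin 2 → ℝ) 0))).hasFDerivAt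
    rw [vf_apply tang_H (xc 0 0) (F := fun x : E => ((x 0 0 : ℝ) : ℂ))
      (Complex.ofRealCLM.contDiff.comp (by fun_prop)) (fun _ => rfl), h3.fderiv]
    simp [mulE, co, bH]
  change _ = _ + ((1 : ℝ) : ℂ) * (vf tang_H (xc 0 0)).val 1 at h1
  rw [h2] at h1
  simp at h1

end Pool.Agent.Lib.MP_99bfa4_al.SL2
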